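import Pool.Agent.N874.TW.Fld

/-!
# The 2-Selmer group of the twists over the extensions

After `N874/TW/Top.lean`, `N874/TW/Abs.lean` and `N874/TW/Fld.lean` of helper874: the further twists by
the polynomials `δ` whose prime divisors stay prime in the field generated by a zero of `f`.
-/

set_option autoImplicit false
set_option linter.all false

open Polynomial IsDedekindDomain
open Pool.Agent.N352.PJ
open Pool.Agent.N874.JM (S_RAM LocF SelF Parts exists_field irr_up)
open Pool.Agent.N874.TW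
open Pool.Agent.N874.PP (nm Ov Ev Sq1 U0 S_CLS S_LIN cl cl_add_aux exists_below below_unique)
open Pool.Agent.N874.PM (ov_val val_le val_eq_of ov_down ev_down sq_down ev_sq ev_mul S_SIG Gen
  SplitMod S_UR S_SPD S_LIE poly_approx val_two ov_prod Lies)
open scoped Classical IntermediateField

namespace Pool.Agent.Helper28H.FF

/-- The prime below. -/
theorem dvd_of_ov {k R : Type} [Field k] [CommRing R] [IsDedekindDomain R] [Algebra k[X] R]
    {P δ : k[X]} (hP : Irreducible P) {w : HeightOneSpectrum R} (h1 : Ov P w) (h2 : Ov δ w) :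
    P ∣ δ := by
  by_contra h
  obtain ⟨a, b, hab⟩ := (hP.coprime_iff_not_dvd).2 h
  apply w.isPrime.ne_top
  rw [Ideal.eq_top_iff_one, ← map_one (algebraMap k[X] R), ← hab, map_add, map_mul, map_mul]
  exact Ideal.add_mem _ (Ideal.mul_mem_left _ _ h1) (Ideal.mul_mem_left _ _ h2)

theorem ov_mul {k R : Type} [Field k] [CommRing R] [IsDedekindDomain R] [Algebra k[X] R]
    {a b : k[X]} {w : HeightOneSpectrum R} (h : Ov (a * b) w) : Ov a w ∨ Ov b w := by
  unfold Ov at h ⊢
  rw [map_mul] at h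
  exact w.isPrime.mem_or_mem h

/-- Modulo the primes in `S` the polynomial is reducible. -/
theorem not_irr {k : Type} [Field k] {g : ℕ} {S : Finset k[X]} {s : k[X] → k[X][X]} (hg : 1 ≤ g)
    (hS : GoodS g S s) {f : k[X][X]} {Q : k[X]} (hQ : Q ∈ S) (hcon : Cg Q f (X * s Q)) :
    ¬ Irreducible (f.map (Ideal.Quotient.mk (Ideal.span {Q}))) := by
  obtain ⟨h1, h2, h3, h4, h5, h6⟩ := hS Q hQ
  haveI : (Ideal.span {Q}).IsMaximal := PrincipalIdealRing.isMaximal_of_irreducible h2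
  letI : Field (k[X] ⧸ Ideal.span {Q}) := Ideal.Quotient.field _
  have e : f.map (Ideal.Quotient.mk (Ideal.span {Q})) =
      X * (s Q).map (Ideal.Quotient.mk (Ideal.span {Q})) := by
    have e1 : f.map (Ideal.Quotient.mk (Ideal.span {Q})) =
        (X * s Q).map (Ideal.Quotient.mk (Ideal.span {Q})) := by
      ext j
      rw [coeff_map, coeff_map]
      exact Ideal.Quotient.eq.2 (Ideal.mem_span_singleton.2 (hcon j))
    rw [e1, Polynomial.map_mul, map_X]
  rw [e]
  intro h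
  rcases h.isUnit_or_isUnit rfl with h7 | h7
  · exact not_isUnit_X h7
  · exact h6.not_isUnit h7

section top

variable {k K L M Ω : Type} (O O' R : Type) [Field k] [Finite k] [Field K] [Field L] [Field M]
  [Field Ω]
  [Algebra k[X] K] [IsFractionRing k[X] K]
  [Algebra K L] [Algebra k[X] L] [IsScalarTower k[X] K L]
  [Algebra K M] [Algebra k[X] M] [IsScalarTower k[X] K M]
  [Algebra L Ω] [Algebra M Ω] [Algebra K Ω] [IsScalarTower K L Ω] [IsScalarTower K M Ω]
  [Algebra k[X] Ω] [IsScalarTower k[X] L Ω] [IsScalarTower k[X] M Ω]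
  [CommRing O] [IsDedekindDomain O] [Algebra O L] [IsFractionRing O L] [Algebra k[X] O]
  [IsScalarTower k[X] O L] [IsIntegralClosure O k[X] L]
  [CommRing O'] [IsDedekindDomain O'] [Algebra O' Ω] [IsFractionRing O' Ω] [Algebra k[X] O']
  [IsScalarTower k[X] O' Ω] [IsIntegralClosure O' k[X] Ω] [Module.Finite k[X] O']
  [CommRing R] [IsDedekindDomain R] [Algebra R M] [IsFractionRing R M] [Algebra k[X] R]
  [IsScalarTower k[X] R M] [IsIntegralClosure R k[X] M] [Module.Finite k[X] R]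
  [FiniteDimensional M Ω] [Algebra.IsSeparable M Ω] [FiniteDimensional L Ω]
  [Algebra.IsSeparable L Ω]

include O in
theorem cnd_top2 (hRAM : S_RAM) (hCSQ : S_CSQ) (hLIE : S_LIE)
    (hLOC1 : Pool.Agent.N874.JM.S_LOC1) (hLOC2 : Pool.Agent.N874.JM.S_LOC2) {g : ℕ}
    {f : k[X][X]} {θ : L} {N : ℕ} {r : k[X]} {S J : Finset k[X]} {T : Set k[X]} {δ : k[X]}
    {s : k[X] → k[X][X]}
    (h2 : (2 : k) ≠ 0) (hg : 1 ≤ g) (hc : IsGen g K f θ) (hS : GoodS g S s)
    (hF : Fam g N r S s f) (hθ : M⟮algebraMap L Ω θ⟯ = ⊤)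
    (hJ : J ⊆ S)
    (hQs : ∀ Q ∈ J, ∀ w : HeightOneSpectrum R, Ov Q w →
      w.valuation M (algebraMap k[X] M Q) = WithZero.exp (-1 : ℤ) ∧
      Function.Surjective ((Ideal.Quotient.mk w.asIdeal).comp (algebraMap k[X] R)))
    (hδT : ∀ P : k[X], P.Monic → Irreducible P → P ∣ δ → P ∈ T)
    (hδJ : ∀ Q ∈ J, ¬ Q ∣ δ) {h : M[X]}
    (hloc : ∀ w : HeightOneSpectrum R, LocF (w.adicCompletion M)
      ((f.scaleRoots ((∏ Q ∈ J, Q) * δ)).map (algebraMap k[X] M)) h)
    (h0 : aeval (algebraMap k[X] Ω ((∏ Q ∈ J, Q) * δ) * algebraMap L Ω θ) h ≠ 0) :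
    Cnd O' J T (algebraMap L Ω θ)
      (algebraMap L Ω (eval₂ (algebraMap k[X] L) θ (derivative f)))
      (aeval (algebraMap k[X] Ω ((∏ Q ∈ J, Q) * δ) * algebraMap L Ω θ) h) := by
  haveI : Algebra.IsIntegral k[X] R := IsIntegralClosure.isIntegral_algebra k[X] M
  haveI : Algebra.IsIntegral k[X] O' := IsIntegralClosure.isIntegral_algebra k[X] Ω
  have hS' : ∀ Q ∈ S, Q.Monic ∧ Irreducible Q := fun Q hQ => ⟨(hS Q hQ).1, (hS Q hQ).2.1⟩
  have hmon : (f.map (algebraMap k[X] M)).Monic := hc.mon.map _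
  have hdeg : (f.map (algebraMap k[X] M)).natDegree = 2 * g + 1 := by
    rw [hc.mon.natDegree_map, hc.deg]
  have hsc : ∀ D : k[X], (f.scaleRoots D).map (algebraMap k[X] M) =
      (f.map (algebraMap k[X] M)).scaleRoots (algebraMap k[X] M D) := by
    intro D
    apply map_scaleRoots
    rw [hc.mon.leadingCoeff, map_one]
    exact one_ne_zero
  have hroot : aeval (algebraMap L Ω θ) (f.map (algebraMap k[X] M)) = 0 := by
    have h1 := congrArg (algebraMap L Ω) hc.root
    rw [map_zero, hom_eval₂, ← IsScalarTower.algebraMap_eq k[X] L Ω] at h1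
    rw [aeval_map_algebraMap, aeval_def]
    exact h1
  have hder : aeval (algebraMap L Ω θ) (derivative (f.map (algebraMap k[X] M))) =
      algebraMap L Ω (eval₂ (algebraMap k[X] L) θ (derivative f)) := by
    rw [derivative_map, aeval_map_algebraMap, aeval_def, hom_eval₂,
      ← IsScalarTower.algebraMap_eq k[X] L Ω]
  have v2 : ∀ w : HeightOneSpectrum R, w.valuation M 2 = 1 := by
    intro w
    have e : (2 : M) = algebraMap k[X] M (C 2) := by
      rw [show (C (2 : k) : k[X]) = 2 from rfl, map_ofNat]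
    rw [e]
    refine val_eq_of _ w (Pool.Agent.N874.PM.not_ov_unit ?_ w)
    rw [isUnit_C]
    exact h2.isUnit
  refine ⟨fun 𝔓 h1 h2 h3 => ?_, fun Q hQ 𝔓 h𝔓 h3 => ?_⟩
  · obtain ⟨w, hw, hO⟩ := hLIE k M Ω R O' 𝔓
    obtain ⟨P₁, b1, b2, b3⟩ := exists_below (k := k) 𝔓
    have hD : w.valuation M (algebraMap k[X] M ((∏ Q ∈ J, Q) * δ)) = 1 := by
      refine val_eq_of _ w fun h => ?_
      rcases ov_mul h with h | h
      · obtain ⟨Q, hQ, h'⟩ := ov_prod h
        exact h2 Q hQ ((hO Q).1 h')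
      · exact h1 P₁ (hδT P₁ b1 b2 (dvd_of_ov b2 b3 ((hO δ).1 h))) b3
    have hl := hloc w
    rw [hsc] at hl
    have e3 : algebraMap M Ω (algebraMap k[X] M ((∏ P ∈ J, P) * δ)) =
        algebraMap k[X] Ω ((∏ P ∈ J, P) * δ) :=
      (IsScalarTower.algebraMap_apply k[X] M Ω _).symm
    have h4 := hLOC1 M Ω R O' w 𝔓 hw (v2 w) (f.map (algebraMap k[X] M)) h
      (algebraMap k[X] M ((∏ P ∈ J, P) * δ)) (algebraMap L Ω θ) hmon
      (by rw [hdeg]; exact odd_two_mul_add_one g)
      (fun i => by rw [coeff_map]; exact val_le _ w) hroot (by rw [hder]; exact h3) hD hl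
      (by rw [e3]; exact h0)
    rw [e3] at h4
    exact h4
  · have hQS := hJ hQ
    obtain ⟨w, hw, hO⟩ := hLIE k M Ω R O' 𝔓
    have hQw : Ov Q w := (hO Q).2 h𝔓
    haveI : Finite (R ⧸ w.asIdeal) := Pool.Agent.N539.PP.finite_residue (hS Q hQS).2.1 hQw
    haveI : Finite (O' ⧸ 𝔓.asIdeal) := Pool.Agent.N539.PP.finite_residue (hS Q hQS).2.1 h𝔓
    obtain ⟨h5, h6⟩ := q_top (K := K) O O' R hRAM hCSQ hLIE hg hc hF.sq hS hθ hQS (hF.con Q hQS)
      (fun w hw => (hQs Q hQ w hw).1) 𝔓 h𝔓 h3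
    have hprod : (∏ P ∈ J, P) * δ = Q * ((∏ P ∈ J.erase Q, P) * δ) := by
      rw [← mul_assoc]
      congr 1
      exact (Finset.mul_prod_erase J id hQ).symm
    have hnd : ¬ Q ∣ (∏ P ∈ J.erase Q, P) * δ := by
      intro hd'
      rcases (hS Q hQS).2.1.prime.dvd_or_dvd hd' with hd | hd
      · obtain ⟨P, hP, hQP⟩ := ((hS Q hQS).2.1.prime.dvd_finset_prod_iff _).1 hd
        have hP' := Finset.mem_erase.1 hP
        have hPS := hS P (hJ hP'.2)
        exact hP'.1 (eq_of_monic_of_associated (hS Q hQS).1 hPS.1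
          ((hS Q hQS).2.1.associated_of_dvd hPS.2.1 hQP)).symm
      · exact hδJ Q hQ hd
    have hD' : w.valuation M (algebraMap k[X] M ((∏ P ∈ J.erase Q, P) * δ)) = 1 := by
      refine val_eq_of _ w fun h => ?_
      exact hnd (dvd_of_ov (hS Q hQS).2.1 hQw h)
    have hl := hloc w
    rw [hsc, hprod, map_mul] at hl
    have e3 : algebraMap M Ω (algebraMap k[X] M Q * algebraMap k[X] M ((∏ P ∈ J.erase Q, P) * δ)) =
        algebraMap k[X] Ω ((∏ P ∈ J, P) * δ) := by
      rw [hprod, ← map_mul, ← IsScalarTower.algebraMap_apply k[X] M Ω]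
    have hsm : (s Q).Monic := (hS Q hQS).2.2.1
    have hsd : (s Q).natDegree = 2 * g := (hS Q hQS).2.2.2.1
    have h7 := hLOC2 M Ω R O' w 𝔓 hw (v2 w) g (f.map (algebraMap k[X] M)) h
      ((s Q).map (algebraMap k[X] R)) (algebraMap k[X] M Q)
      (algebraMap k[X] M ((∏ P ∈ J.erase Q, P) * δ)) (algebraMap L Ω θ) hg hmon hdeg
      (hsm.map _) (by rw [hsm.natDegree_map, hsd])
      (irr_top (hS Q hQS).2.1 w (hQs Q hQ w hQw).2 hQw (hS Q hQS).2.2.2.2.2)
      (fun j => by
        have e : (f.map (algebraMap k[X] M)).coeff j - algebraMap R M ((X * (s Q).map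
            (algebraMap k[X] R)).coeff j) = algebraMap k[X] M (f.coeff j - (X * s Q).coeff j) := by
          have e1 : (X * (s Q).map (algebraMap k[X] R)) = (X * s Q).map (algebraMap k[X] R) := by
            rw [Polynomial.map_mul, map_X]
          rw [e1, coeff_map, coeff_map, ← IsScalarTower.algebraMap_apply k[X] R M, map_sub]
        rw [e, ← ov_val]
        obtain ⟨c, hc'⟩ := hF.con Q hQS j
        unfold Ov at hQw ⊢
        rw [hc', map_mul]
        exact Ideal.mul_mem_right _ _ hQw) hroot h3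
      (by rw [← IsScalarTower.algebraMap_apply k[X] M Ω]; exact h5) hD'
      (by
        have := h6 (-1) (fun h => (hS Q hQS).2.1.not_isUnit (isUnit_of_dvd_unit h isUnit_one.neg))
        rwa [map_neg, map_one] at this)
      (by rw [← IsScalarTower.algebraMap_apply k[X] M Ω]; exact h6 _ hnd) hl
      (by rw [e3]; exact h0)
    rw [e3, ← IsScalarTower.algebraMap_apply k[X] M Ω] at h7
    exact h7

end top

section abs

variable {k K L M Ω : Type} (O O' R : Type) [Field k] [Finite k] [Field K] [Field L] [Field M]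
  [Field Ω]
  [Algebra k[X] K] [IsFractionRing k[X] K]
  [Algebra K L] [Algebra k[X] L] [IsScalarTower k[X] K L]
  [Algebra K M] [Algebra k[X] M] [IsScalarTower k[X] K M]
  [Algebra L Ω] [Algebra M Ω] [Algebra K Ω] [IsScalarTower K L Ω] [IsScalarTower K M Ω]
  [Algebra k[X] Ω] [IsScalarTower k[X] L Ω] [IsScalarTower k[X] M Ω]
  [CommRing O] [IsDedekindDomain O] [Algebra O L] [IsFractionRing O L] [Algebra k[X] O]
  [IsScalarTower k[X] O L] [IsIntegralClosure O k[X] L] [Module.Finite k[X] O]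
  [CommRing O'] [IsDedekindDomain O'] [Algebra O' Ω] [IsFractionRing O' Ω] [Algebra k[X] O']
  [IsScalarTower k[X] O' Ω] [IsIntegralClosure O' k[X] Ω] [Module.Finite k[X] O']
  [CommRing R] [IsDedekindDomain R] [Algebra R M] [IsFractionRing R M] [Algebra k[X] R]
  [IsScalarTower k[X] R M] [IsIntegralClosure R k[X] M] [Module.Finite k[X] R] [IsGalois K M]
  [FiniteDimensional M Ω] [Algebra.IsSeparable M Ω] [FiniteDimensional L Ω]
  [Algebra.IsSeparable L Ω]

include O O' in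
theorem selF_abs2 (H : Parts) {g : ℕ} {f : k[X][X]} {θ : L} {N : ℕ} {r : k[X]} {S J : Finset k[X]}
    {s : k[X] → k[X][X]} {δ : k[X]} (h2 : (2 : k) ≠ 0) (hg : 1 ≤ g) (hc : IsGen g K f θ)
    (hS : GoodS g S s) (hF : Fam g N r S s f) (hJ : J ⊆ S)
    (hsel : ∀ α : L, α ≠ 0 → IsSquare (Algebra.norm K α) →
      (∀ 𝔓 : HeightOneSpectrum O, (∀ Q ∈ J, ¬ Ov Q 𝔓) → Ev 𝔓 α) →
      (∀ Q ∈ J, ∀ 𝔓 : HeightOneSpectrum O, Ov Q 𝔓 → 𝔓.valuation L θ = 1 →
        U0 𝔓 (algebraMap k[X] L Q * θ) α) → IsSquare α)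
    (hθ : M⟮algebraMap L Ω θ⟯ = ⊤)
    (hQs : ∀ Q ∈ J, ∀ w : HeightOneSpectrum R, Ov Q w →
      w.valuation M (algebraMap k[X] M Q) = WithZero.exp (-1 : ℤ) ∧
      Function.Surjective ((Ideal.Quotient.mk w.asIdeal).comp (algebraMap k[X] R)))
    (hPr : ∀ P : k[X], P.Monic → Irreducible P → ((∃ w : HeightOneSpectrum R, Ov P w ∧
      w.valuation M (algebraMap k[X] M P) ≠ WithZero.exp (-1 : ℤ)) ∨ P ∣ δ) →
      Irreducible (f.map (Ideal.Quotient.mk (Ideal.span {P}))))
    {n : ℕ} (hM : Module.finrank K M = 2 ^ n) (hΩ : Module.finrank M Ω = 2 * g + 1) :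
    ∀ h : M[X], aeval (algebraMap k[X] Ω ((∏ Q ∈ J, Q) * δ) * algebraMap L Ω θ) h ≠ 0 →
      IsSquare (Algebra.norm M (aeval (algebraMap k[X] Ω ((∏ Q ∈ J, Q) * δ) *
        algebraMap L Ω θ) h)) →
      (∀ w : HeightOneSpectrum R, LocF (w.adicCompletion M)
        ((f.scaleRoots ((∏ Q ∈ J, Q) * δ)).map (algebraMap k[X] M)) h) →
      IsSquare (aeval (algebraMap k[X] Ω ((∏ Q ∈ J, Q) * δ) * algebraMap L Ω θ) h) := by
  haveI : Algebra.IsIntegral k[X] R := IsIntegralClosure.isIntegral_algebra k[X] M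
  haveI : Algebra.IsIntegral k[X] O' := IsIntegralClosure.isIntegral_algebra k[X] Ω
  haveI : Algebra.IsIntegral k[X] O := IsIntegralClosure.isIntegral_algebra k[X] L
  have h2K : (2 : K) ≠ 0 := by
    have e : algebraMap k[X] K (C (2 : k)) = 2 := by
      rw [show (C (2 : k) : k[X]) = 2 from rfl, map_ofNat]
    rw [← e, Ne, IsFractionRing.to_map_eq_zero_iff, C_eq_zero]
    exact h2
  have hS' : ∀ Q ∈ S, Q.Monic ∧ Irreducible Q := fun Q hQ => ⟨(hS Q hQ).1, (hS Q hQ).2.1⟩
  -- the ramified primes and the divisors of `δ`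
  let T : Set k[X] := {P | P.Monic ∧ Irreducible P ∧ ((∃ w : HeightOneSpectrum R, Ov P w ∧
      w.valuation M (algebraMap k[X] M P) ≠ WithZero.exp (-1 : ℤ)) ∨ P ∣ δ)}
  have hδJ : ∀ Q ∈ J, ¬ Q ∣ δ := by
    intro Q hQ hd
    have hQS := hS Q (hJ hQ)
    exact not_irr hg hS (hJ hQ) (hF.con Q (hJ hQ)) (hPr Q hQS.1 hQS.2.1 (Or.inr hd))
  intro h hne hN hloc
  have hcnd := cnd_top2 (T := T) O O' R H.ram H.csq H.lie H.loc1 H.loc2 h2 hg hc hS hF hθ hJ hQs
    (fun P h1 h2 h3 => ⟨h1, h2, Or.inr h3⟩) hδJ hloc hne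
  refine H.tow n K L M Ω h2K hM (by rw [hc.rank]; exact odd_two_mul_add_one g)
    (by rw [hΩ, hc.rank])
    (fun x => Cnd O' J T (algebraMap L Ω θ)
      (algebraMap L Ω (eval₂ (algebraMap k[X] L) θ (derivative f))) x) (fun x hx => cnd_sq hx)
    (fun x y hx hy h h' => cnd_mul H.cls h2 (fun Q hQ => (hS Q (hJ hQ)).2.1)
      (fun Q hQ 𝔓 h1 h3 => ?_) hx hy h h')
    (fun σ x h => cnd_sig H.sig rfl rfl σ h)
    (fun x hx hC hN => ?_) _ hne hcnd hN
  · have h4 := (q_top (K := K) O O' R H.ram H.csq H.lie hg hc hF.sq hS hθ (hJ hQ)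
      (hF.con Q (hJ hQ)) (fun w hw => (hQs Q hQ w hw).1) 𝔓 h1 h3).1
    apply not_ev_exp
    rw [map_mul, h4, h3, mul_one]
  · refine base_sq O O' (fun Q hQ => hS' Q (hJ hQ)) (fun P hP => ⟨hP.1, hP.2.1⟩) hsel
      (fun 𝔮 => ?_) (fun 𝔓 h1 h3 => ?_) (fun Q hQ 𝔓 h1 h3 => ?_)
      (fun P hP => H.p3 g k K L O f θ hc hF.sq P hP.2.1 (hPr P hP.1 hP.2.1 hP.2.2))
      (H.ram g k K L O f θ hc hF.sq)
      (H.par g k K L O f θ hc hF.sq) hx hC hN
    · refine Pool.Agent.N704.PP.val_int (k := k) 𝔮 ?_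
      rw [eval₂_eq_sum_range]
      exact IsIntegral.sum _ fun i _ => isIntegral_algebraMap.mul
        ((Pool.Agent.N769.PJ.theta_int hc).pow _)
    · obtain ⟨P, hPm, hPi, hP𝔓⟩ := exists_below (k := k) 𝔓
      have hPT : P ∉ T := fun hP => h1 P hP hP𝔓
      obtain ⟨𝔓', h4, -⟩ := up_prime (K := K) (M := M) (Ω := Ω) O O' R hc hθ hPm hPi
        (fun w hw => by
          by_contra hne
          exact hPT ⟨hPm, hPi, Or.inl ⟨w, hw, hne⟩⟩) 𝔓 hP𝔓 h3
      exact ⟨𝔓', h4⟩
    · have hQS := hJ hQ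
      obtain ⟨𝔓', h4, w, hw, hwQ⟩ := up_prime (K := K) (M := M) (Ω := Ω) O O' R hc hθ
        (hS Q hQS).1 (hS Q hQS).2.1 (fun w hw => (hQs Q hQ w hw).1) 𝔓 h1
        (eta_unit O H.ram hg hc hF.sq hS hQS (hF.con Q hQS) 𝔓 h1 h3)
      exact ⟨𝔓', h4, dens3 (K := K) O' R hθ 𝔓' w hw (by rw [h4, h3])
        (dens1 R w (hQs Q hQ w hwQ).1 (hQs Q hQ w hwQ).2)⟩

end abs

section mid

variable {k K L M Ω : Type} (O : Type) [Field k] [Finite k] [Field K] [Field L] [Field M]
  [Field Ω]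
  [Algebra k[X] K] [IsFractionRing k[X] K]
  [Algebra K L] [Algebra k[X] L] [IsScalarTower k[X] K L]
  [Algebra K M] [Algebra k[X] M] [IsScalarTower k[X] K M]
  [Algebra L Ω] [Algebra M Ω] [Algebra K Ω] [IsScalarTower K L Ω] [IsScalarTower K M Ω]
  [Algebra k[X] Ω] [IsScalarTower k[X] L Ω] [IsScalarTower k[X] M Ω]
  [FiniteDimensional K L] [Algebra.IsSeparable K L] [FiniteDimensional K M] [IsGalois K M]
  [FiniteDimensional K Ω] [Algebra.IsSeparable K Ω] (R : Type)
  [CommRing O] [IsDedekindDomain O] [Algebra O L] [IsFractionRing O L] [Algebra k[X] O]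
  [IsScalarTower k[X] O L] [IsIntegralClosure O k[X] L] [Module.Finite k[X] O]
  [CommRing R] [IsDedekindDomain R] [Algebra R M] [IsFractionRing R M] [Algebra k[X] R]
  [IsScalarTower k[X] R M] [IsIntegralClosure R k[X] M]

include O in
theorem selF_mid2 (H : Parts) {g : ℕ} {f : k[X][X]} {θ : L} {N : ℕ} {r : k[X]} {S J : Finset k[X]}
    {s : k[X] → k[X][X]} {δ : k[X]} (h2 : (2 : k) ≠ 0) (hg : 1 ≤ g) (hc : IsGen g K f θ)
    (hS : GoodS g S s) (hF : Fam g N r S s f) (hJ : J ⊆ S)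
    (hsel : ∀ α : L, α ≠ 0 → IsSquare (Algebra.norm K α) →
      (∀ 𝔓 : HeightOneSpectrum O, (∀ Q ∈ J, ¬ Ov Q 𝔓) → Ev 𝔓 α) →
      (∀ Q ∈ J, ∀ 𝔓 : HeightOneSpectrum O, Ov Q 𝔓 → 𝔓.valuation L θ = 1 →
        U0 𝔓 (algebraMap k[X] L Q * θ) α) → IsSquare α)
    (hθ : M⟮algebraMap L Ω θ⟯ = ⊤)
    (hQs : ∀ Q ∈ J, ∀ w : HeightOneSpectrum R, Ov Q w →
      w.valuation M (algebraMap k[X] M Q) = WithZero.exp (-1 : ℤ) ∧
      Function.Surjective ((Ideal.Quotient.mk w.asIdeal).comp (algebraMap k[X] R)))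
    (hPr : ∀ P : k[X], P.Monic → Irreducible P → ((∃ w : HeightOneSpectrum R, Ov P w ∧
      w.valuation M (algebraMap k[X] M P) ≠ WithZero.exp (-1 : ℤ)) ∨ P ∣ δ) →
      Irreducible (f.map (Ideal.Quotient.mk (Ideal.span {P}))))
    {n : ℕ} (hM : Module.finrank K M = 2 ^ n) (hΩ : Module.finrank M Ω = 2 * g + 1) :
    ∀ h : M[X], aeval (algebraMap k[X] Ω ((∏ Q ∈ J, Q) * δ) * algebraMap L Ω θ) h ≠ 0 →
      IsSquare (Algebra.norm M (aeval (algebraMap k[X] Ω ((∏ Q ∈ J, Q) * δ) *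
        algebraMap L Ω θ) h)) →
      (∀ w : HeightOneSpectrum R, LocF (w.adicCompletion M)
        ((f.scaleRoots ((∏ Q ∈ J, Q) * δ)).map (algebraMap k[X] M)) h) →
      IsSquare (aeval (algebraMap k[X] Ω ((∏ Q ∈ J, Q) * δ) * algebraMap L Ω θ) h) := by
  haveI : IsScalarTower k[X] K Ω := by
    refine IsScalarTower.of_algebraMap_eq fun x => ?_
    rw [IsScalarTower.algebraMap_apply k[X] M Ω, IsScalarTower.algebraMap_apply k[X] K M,
      ← IsScalarTower.algebraMap_apply K M Ω]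
  haveI : Module.Finite k[X] R := IsIntegralClosure.finite k[X] K M R
  haveI : IsDedekindDomain (integralClosure k[X] Ω) := integralClosure.isDedekindDomain k[X] K Ω
  haveI : IsFractionRing (integralClosure k[X] Ω) Ω :=
    integralClosure.isFractionRing_of_finite_extension K Ω
  haveI : Module.Finite k[X] (integralClosure k[X] Ω) := IsIntegralClosure.finite k[X] K Ω _
  haveI : FiniteDimensional M Ω := FiniteDimensional.right K M Ω
  haveI : FiniteDimensional L Ω := FiniteDimensional.right K L Ω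
  haveI : Algebra.IsSeparable M Ω := Algebra.isSeparable_tower_top_of_isSeparable K M Ω
  haveI : Algebra.IsSeparable L Ω := Algebra.isSeparable_tower_top_of_isSeparable K L Ω
  exact selF_abs2 (K := K) O (integralClosure k[X] Ω) R H h2 hg hc hS hF hJ hsel hθ hQs hPr hM hΩ

end mid

/-- The primes in `J` split completely in `M`, and `f` is irreducible modulo the primes which are
ramified in `M` or divide `δ`. -/
structure Adm {k : Type} [Field k] (J : Finset k[X]) (f : k[X][X]) (δ : k[X]) (M R : Type)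
    [Field M] [Algebra k[X] M] [CommRing R] [IsDedekindDomain R] [Algebra R M] [IsFractionRing R M]
    [Algebra k[X] R] : Prop where
  spl : SplitS J M R
  irr : ∀ P : k[X], P.Monic → Irreducible P →
    ((∃ w : HeightOneSpectrum R, algebraMap k[X] R P ∈ w.asIdeal ∧
      w.valuation M (algebraMap k[X] M P) ≠ WithZero.exp (-1 : ℤ)) ∨ P ∣ δ) →
    Irreducible (f.map (Ideal.Quotient.mk (Ideal.span {P})))

/-- The property of `f` for all extensions `M` and all twists. -/
def UniT {k : Type} [Field k] (K : Type) [Field K] [Algebra k[X] K] [IsFractionRing k[X] K]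
    (J : Finset k[X]) (f : k[X][X]) : Prop :=
  ∀ (M : Type) [Field M] [Algebra K M] [Algebra k[X] M] [IsScalarTower k[X] K M]
    [FiniteDimensional K M] [IsGalois K M] (R : Type) [CommRing R] [IsDedekindDomain R]
    [Algebra R M] [IsFractionRing R M] [Algebra k[X] R] [IsScalarTower k[X] R M]
    [IsIntegralClosure R k[X] M] (n : ℕ) (δ : k[X]), Module.finrank K M = 2 ^ n → δ ≠ 0 →
    Adm J f δ M R → SelF R ((f.scaleRoots ((∏ Q ∈ J, Q) * δ)).map (algebraMap k[X] M))

/-- The theorem on the Selmer group over all `M` and for all twists. -/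
theorem selF2 (H : Parts) {k : Type} [Field k] [Finite k] (K : Type) [Field K]
    [Algebra k[X] K] [IsFractionRing k[X] K] {g : ℕ} {f : k[X][X]} {N : ℕ} {r : k[X]}
    {S : Finset k[X]} {s : k[X] → k[X][X]} (h2 : (2 : k) ≠ 0) (hg : 1 ≤ g)
    (hr : GoodR g r) (hS : GoodS g S s)
    (hF : Fam g N r S s f) (hnb : ¬ LBad g N S s f) :
    ∃ J ⊆ S, UniT K J f := by
  have hm := hF.ht.mon
  have hd := hF.ht.deg
  have hI := fun D hD => H.irk g k K f N r D hF.ht hr hF.inf hD
  haveI hfact : Fact (Irreducible (FK K f)) := ⟨(hI 1 one_ne_zero).1⟩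
  have hsep : (FK K f).Separable := ((hI 1 one_ne_zero).2.2 hF.sq.ne_zero).1
  have hc := isGen_adjoinRoot (K := K) hm hd
  have hmK : (FK K f).Monic := hm.map _
  have hdK : (FK K f).natDegree = 2 * g + 1 := by rw [FK, hm.natDegree_map, hd]
  haveI : FiniteDimensional K (AdjoinRoot (FK K f)) := hmK.finite_adjoinRoot
  haveI : Algebra.IsSeparable K (AdjoinRoot (FK K f)) := sep_adjoinRoot hsep
  haveI : IsDedekindDomain (integralClosure k[X] (AdjoinRoot (FK K f))) :=
    integralClosure.isDedekindDomain k[X] K _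
  haveI : IsFractionRing (integralClosure k[X] (AdjoinRoot (FK K f))) (AdjoinRoot (FK K f)) :=
    integralClosure.isFractionRing_of_finite_extension K _
  haveI : Module.Finite k[X] (integralClosure k[X] (AdjoinRoot (FK K f))) :=
    IsIntegralClosure.finite k[X] K (AdjoinRoot (FK K f)) _
  obtain ⟨J, hJ, hselK⟩ := Pool.Agent.N874.JM.core2 (K := K) (L := AdjoinRoot (FK K f))
    (integralClosure k[X] (AdjoinRoot (FK K f))) H.cls H.lin H.exq H.ns H.parq H.recp H.sd H.tv
    H.lb hg h2 hc hr hS hF hnb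
  refine ⟨J, hJ, ?_⟩
  intro M _ _ _ _ _ _ R _ _ _ _ _ _ _ n δ hM hδ0 hadm
  have hmM : (FK M f).Monic := hm.map _
  have hdM : (FK M f).natDegree = 2 * g + 1 := by rw [FK, hm.natDegree_map, hd]
  have hFmap : FK M f = (FK K f).map (algebraMap K M) := by
    rw [FK, FK, Polynomial.map_map, ← IsScalarTower.algebraMap_eq k[X] K M]
  have hirrM : Irreducible (FK M f) := by
    rw [hFmap]
    exact irr_up hM hfact.out hmK (by rw [hdK]; exact odd_two_mul_add_one g)
  have hirrD : ∀ D : k[X], D ≠ 0 → Irreducible ((f.scaleRoots D).map (algebraMap k[X] M)) := by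
    intro D hD
    have h1 : (f.scaleRoots D).Monic := (monic_scaleRoots_iff D).2 hm
    have h3 : ((f.scaleRoots D).map (algebraMap k[X] K)).natDegree = 2 * g + 1 := by
      rw [h1.natDegree_map, natDegree_scaleRoots, hd]
    have h4 := irr_up hM (hI D hD).2.1 (h1.map _) (by rw [h3]; exact odd_two_mul_add_one g)
    rwa [Polynomial.map_map, ← IsScalarTower.algebraMap_eq k[X] K M] at h4
  obtain ⟨Ω, instF, instA, t, ht, hrk, htop, hfin, hmin⟩ := exists_field hirrM hmM
  rw [hdM] at hrk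
  letI : Algebra K Ω := ((algebraMap M Ω).comp (algebraMap K M)).toAlgebra
  haveI : IsScalarTower K M Ω := IsScalarTower.of_algebraMap_eq fun x => rfl
  letI : Algebra k[X] Ω := ((algebraMap M Ω).comp (algebraMap k[X] M)).toAlgebra
  haveI : IsScalarTower k[X] M Ω := IsScalarTower.of_algebraMap_eq fun x => rfl
  have ht' : (FK K f).eval₂ (algebraMap K Ω) t = 0 := by
    rw [hFmap, aeval_def, eval₂_map] at ht
    exact ht
  letI : Algebra (AdjoinRoot (FK K f)) Ω := (AdjoinRoot.lift (algebraMap K Ω) t ht').toAlgebra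
  have hL : ∀ x : AdjoinRoot (FK K f), algebraMap (AdjoinRoot (FK K f)) Ω x =
      AdjoinRoot.lift (algebraMap K Ω) t ht' x := fun x => rfl
  haveI : IsScalarTower K (AdjoinRoot (FK K f)) Ω := by
    refine IsScalarTower.of_algebraMap_eq fun x => ?_
    rw [hL, AdjoinRoot.algebraMap_eq, AdjoinRoot.lift_of]
  haveI : IsScalarTower k[X] (AdjoinRoot (FK K f)) Ω := by
    refine IsScalarTower.of_algebraMap_eq fun x => ?_
    rw [IsScalarTower.algebraMap_apply k[X] K (AdjoinRoot (FK K f)),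
      ← IsScalarTower.algebraMap_apply K (AdjoinRoot (FK K f)) Ω,
      IsScalarTower.algebraMap_apply k[X] M Ω, IsScalarTower.algebraMap_apply k[X] K M,
      ← IsScalarTower.algebraMap_apply K M Ω]
  haveI : FiniteDimensional K Ω := FiniteDimensional.trans K M Ω
  haveI : Algebra.IsSeparable M Ω := by
    have hs : (FK M f).Separable := by
      rw [hFmap]
      exact hsep.map
    have hsep' : IsSeparable M t := by
      unfold IsSeparable
      rw [hmin]
      exact hs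
    haveI := (IntermediateField.isSeparable_adjoin_simple_iff_isSeparable M Ω).2 hsep'
    rw [htop] at this
    exact AlgEquiv.Algebra.isSeparable (IntermediateField.topEquiv (F := M) (E := Ω))
  haveI : Algebra.IsSeparable K Ω := Algebra.IsSeparable.trans K M Ω
  have hroot : algebraMap (AdjoinRoot (FK K f)) Ω (AdjoinRoot.root (FK K f)) = t := by
    rw [hL, AdjoinRoot.lift_root]
  have hsel := selF_mid2 (K := K) (L := AdjoinRoot (FK K f)) (Ω := Ω) (δ := δ)
    (integralClosure k[X] (AdjoinRoot (FK K f))) R H h2 hg hc hS hF hJ hselK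
    (by rw [hroot]; exact htop) hadm.spl hadm.irr hM hrk
  rw [hroot] at hsel
  have hD0 : (∏ Q ∈ J, Q) * δ ≠ 0 := by
    refine mul_ne_zero ?_ hδ0
    rw [Finset.prod_ne_zero_iff]
    exact fun Q hQ => (hS Q (hJ hQ)).2.1.ne_zero
  generalize (∏ Q ∈ J, Q) * δ = D at hD0 hsel ⊢
  intro h hcop hnorm hloc
  set F' : M[X] := (f.scaleRoots D).map (algebraMap k[X] M) with hF'
  haveI hfact' : Fact (Irreducible F') := ⟨hirrD D hD0⟩
  set Θ : Ω := algebraMap k[X] Ω D * t with hΘ
  have hrootD : aeval Θ F' = 0 := by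
    rw [hF', aeval_map_algebraMap]
    have h1 := scaleRoots_eval₂_mul (p := f) (algebraMap k[X] Ω) t D
    have h3 : eval₂ (algebraMap k[X] Ω) t f = 0 := by
      rw [FK, aeval_map_algebraMap, aeval_def] at ht
      exact ht
    rw [h3, mul_zero] at h1
    rw [aeval_def]
    exact h1
  have hmF' : F'.Monic := ((monic_scaleRoots_iff D).2 hm).map _
  let φ : AdjoinRoot F' →ₐ[M] Ω := AdjoinRoot.liftAlgHom F' (Algebra.ofId M _) Θ hrootD
  have hφmk : ∀ p : M[X], φ (AdjoinRoot.mk F' p) = aeval Θ p := by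
    intro p
    have h1 := AdjoinRoot.liftAlgHom_mk F' (Algebra.ofId M Ω) Θ hrootD p
    rw [Algebra.toRingHom_ofId, ← Polynomial.aeval_def] at h1
    exact h1
  have hφinj : Function.Injective φ := φ.toRingHom.injective
  haveI : FiniteDimensional M (AdjoinRoot F') := hmF'.finite_adjoinRoot
  have hrk' : Module.finrank M (AdjoinRoot F') = Module.finrank M Ω := by
    rw [hrk, (AdjoinRoot.powerBasis hmF'.ne_zero).finrank, AdjoinRoot.powerBasis_dim, hF',
      ((monic_scaleRoots_iff D).2 hm).natDegree_map, natDegree_scaleRoots, hd]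
  have hφsurj : Function.Surjective φ :=
    (LinearMap.injective_iff_surjective_of_finrank_eq_finrank (f := φ.toLinearMap) hrk').1 hφinj
  let e : AdjoinRoot F' ≃ₐ[M] Ω := AlgEquiv.ofBijective φ ⟨hφinj, hφsurj⟩
  have hemk : ∀ p : M[X], e (AdjoinRoot.mk F' p) = aeval Θ p := hφmk
  have hne : aeval Θ h ≠ 0 := by
    intro h0
    obtain ⟨u, v, huv⟩ := hcop
    have := congrArg (aeval Θ) huv
    rw [map_add, map_mul, map_mul, hrootD, h0, mul_zero, mul_zero, add_zero, map_one] at this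
    exact zero_ne_one this
  have hnorm' : IsSquare (Algebra.norm M (aeval Θ h)) := by
    rw [← hemk, Algebra.norm_eq_of_algEquiv]
    exact hnorm
  obtain ⟨y, hy⟩ := hsel h hne hnorm' hloc
  obtain ⟨z, rfl⟩ := hφsurj y
  obtain ⟨s', rfl⟩ := AdjoinRoot.mk_surjective z
  refine ⟨s', ?_⟩
  rw [← AdjoinRoot.mk_eq_zero]
  apply hφinj
  rw [map_zero, hφmk, map_sub, map_pow, sub_eq_zero]
  rw [hφmk] at hy
  rw [pow_two]
  exact hy

end Pool.Agent.Helper28H.FF
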