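import Pool.Agent.Helper28H.FF.Irr
import Pool.Agent.N402.PJ.BX

/-!
# Sums of products of weights which depend on the residues modulo different primes
-/

set_option autoImplicit false
set_option linter.all false

open Polynomial
open scoped Classical

namespace Pool.Agent.Helper28H.FF

open Pool.Agent.N352.PJ Pool.Agent.N615.JM
open Pool.Agent.N874.PP (nm)
open Pool.Agent.N490.PP.Fam (q_pos)

variable {k : Type} [Field k] [Finite k]

theorem bx_fin (g N : ℕ) (r W : k[X]) (A : Fin (2 * g) → k[X]) : (Bx g N r W A).Finite := by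
  refine (Pool.Agent.N402.PJ.bx g k N r 1 (fun _ => 0) one_ne_zero (by simp)).1.subset ?_
  intro a ha j
  exact ⟨(ha j).1, (ha j).2.1, one_dvd _⟩

/-- The box as a finset. -/
noncomputable def BF (g N : ℕ) (r W : k[X]) (A : Fin (2 * g) → k[X]) :
    Finset (Fin (2 * g) → k[X]) := (bx_fin g N r W A).toFinset

theorem mem_BF {g N : ℕ} {r W : k[X]} {A a : Fin (2 * g) → k[X]} :
    a ∈ BF g N r W A ↔ a ∈ Bx g N r W A := by
  unfold BF
  rw [Set.Finite.mem_toFinset]

theorem card_BF {g N : ℕ} {r W : k[X]} {A : Fin (2 * g) → k[X]} (hW : W ≠ 0)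
    (hd : W.natDegree ≤ 4 * N) :
    ((BF g N r W A).card : ℝ) * (nm W : ℝ) ^ (2 * g) = (Nat.card k : ℝ) ^ (2 * N * dd g) := by
  have h := (Pool.Agent.N402.PJ.bx g k N r W A hW hd).2
  rw [Set.ncard_eq_toFinset_card _ (bx_fin g N r W A)] at h
  unfold BF
  exact_mod_cast h

/-- The reduced residues as a finset. -/
noncomputable def RF (g : ℕ) (Q : k[X]) : Finset (Fin (2 * g) → k[X]) := (rd_fin g Q).toFinset

theorem mem_RF {g : ℕ} {Q : k[X]} {b : Fin (2 * g) → k[X]} : b ∈ RF g Q ↔ b ∈ Rd g Q := by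
  unfold RF
  rw [Set.Finite.mem_toFinset]

theorem card_RF (g : ℕ) (Q : k[X]) : (RF g Q).card = nm Q ^ (2 * g) := by
  rw [← rd_card g Q, Set.ncard_eq_toFinset_card _ (rd_fin g Q)]
  rfl

/-- `w` depends only on the residues modulo `Q`. -/
def Per (g : ℕ) (Q : k[X]) (w : (Fin (2 * g) → k[X]) → ℝ) : Prop :=
  ∀ a b : Fin (2 * g) → k[X], (∀ j, Q ∣ a j - b j) → w a = w b

/-- The average. -/
noncomputable def av (g : ℕ) (Q : k[X]) (w : (Fin (2 * g) → k[X]) → ℝ) : ℝ :=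
  (∑ b ∈ RF g Q, w b) / (nm Q : ℝ) ^ (2 * g)

theorem av_nonneg {g : ℕ} {Q : k[X]} {w : (Fin (2 * g) → k[X]) → ℝ} (h : ∀ a, 0 ≤ w a) :
    0 ≤ av g Q w := by
  unfold av
  have := Finset.sum_nonneg (s := RF g Q) fun b _ => h b
  positivity

theorem res_mod (Q : k[X]) (x : k[X]) : Q ∣ x - x % Q :=
  ⟨x / Q, by linear_combination -(EuclideanDomain.div_add_mod x Q)⟩

theorem mod_rd {g : ℕ} {Q : k[X]} (hQ : Q ≠ 0) (a : Fin (2 * g) → k[X]) :
    (fun j => a j % Q) ∈ Rd g Q := by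
  intro j
  have h1 : (a j % Q).degree < Q.degree := EuclideanDomain.mod_lt _ hQ
  rwa [degree_eq_natDegree hQ] at h1

/-- **The sum of the product of the weights.** -/
theorem sum_weights {g N : ℕ} {r : k[X]} {w : k[X] → (Fin (2 * g) → k[X]) → ℝ}
    (h0 : ∀ Q a, 0 ≤ w Q a) (𝒬 : Finset k[X]) : (∀ Q ∈ 𝒬, Q.Monic ∧ Irreducible Q) →
    (∀ Q ∈ 𝒬, Per g Q (w Q)) → ∀ (W : k[X]) (A : Fin (2 * g) → k[X]), W ≠ 0 →
    (∀ Q ∈ 𝒬, IsCoprime W Q) → W.natDegree + ∑ Q ∈ 𝒬, Q.natDegree ≤ 4 * N →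
    ∑ a ∈ BF g N r W A, ∏ Q ∈ 𝒬, w Q a ≤ ((BF g N r W A).card : ℝ) * ∏ Q ∈ 𝒬, av g Q (w Q) := by
  induction 𝒬 using Finset.induction_on with
  | empty =>
    intro _ _ W A _ _ _
    simp
  | insert P 𝒬 hP ih =>
    intro hQ hper W A hW hcop hdeg
    obtain ⟨hPm, hPi⟩ := hQ P (Finset.mem_insert_self _ _)
    have hQ' : ∀ Q ∈ 𝒬, Q.Monic ∧ Irreducible Q := fun Q h => hQ Q (Finset.mem_insert_of_mem h)
    have hper' : ∀ Q ∈ 𝒬, Per g Q (w Q) := fun Q h => hper Q (Finset.mem_insert_of_mem h)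
    rw [Finset.sum_insert hP] at hdeg
    have hPc : IsCoprime W P := hcop P (Finset.mem_insert_self _ _)
    have hWP : W * P ≠ 0 := mul_ne_zero hW hPm.ne_zero
    have hWPd : (W * P).natDegree = W.natDegree + P.natDegree := natDegree_mul hW hPm.ne_zero
    have hcop' : ∀ Q ∈ 𝒬, IsCoprime (W * P) Q := by
      intro Q h
      refine IsCoprime.mul_left (hcop Q (Finset.mem_insert_of_mem h)) ?_
      exact coprime_of_ne ⟨hPm, hPi⟩ (hQ' Q h) fun e => hP (e ▸ h)
    have hex := fun b : Fin (2 * g) → k[X] => crt2 hPc A b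
    choose c hc1 hc2 using hex
    have hprod0 : 0 ≤ ∏ Q ∈ 𝒬, av g Q (w Q) := Finset.prod_nonneg fun Q _ => av_nonneg (h0 Q)
    -- the fibres
    have hmaps : ∀ a ∈ BF g N r W A, (fun j => a j % P) ∈ RF g P := fun a _ =>
      mem_RF.2 (mod_rd hPm.ne_zero a)
    rw [← Finset.sum_fiberwise_of_maps_to hmaps]
    have hstep : ∀ b ∈ RF g P, ∑ a ∈ (BF g N r W A).filter (fun a => (fun j => a j % P) = b),
        ∏ Q ∈ insert P 𝒬, w Q a ≤
        w P b * (((BF g N r W A).card : ℝ) / (nm P : ℝ) ^ (2 * g) * ∏ Q ∈ 𝒬, av g Q (w Q)) := by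
      intro b hb
      have h1 : ∑ a ∈ (BF g N r W A).filter (fun a => (fun j => a j % P) = b),
          ∏ Q ∈ insert P 𝒬, w Q a =
          w P b * ∑ a ∈ (BF g N r W A).filter (fun a => (fun j => a j % P) = b),
            ∏ Q ∈ 𝒬, w Q a := by
        rw [Finset.mul_sum]
        refine Finset.sum_congr rfl fun a ha => ?_
        obtain ⟨ha1, ha2⟩ := Finset.mem_filter.1 ha
        rw [Finset.prod_insert hP]
        congr 1
        refine hper P (Finset.mem_insert_self _ _) a b fun j => ?_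
        rw [← ha2]
        exact res_mod P (a j)
      have h2 : ∑ a ∈ (BF g N r W A).filter (fun a => (fun j => a j % P) = b), ∏ Q ∈ 𝒬, w Q a ≤
          ∑ a ∈ BF g N r (W * P) (c b), ∏ Q ∈ 𝒬, w Q a := by
        refine Finset.sum_le_sum_of_subset_of_nonneg ?_ fun a _ _ =>
          Finset.prod_nonneg fun Q _ => h0 Q a
        intro a ha
        obtain ⟨ha1, ha2⟩ := Finset.mem_filter.1 ha
        rw [mem_BF] at ha1 ⊢
        intro j
        refine ⟨(ha1 j).1, (ha1 j).2.1, ?_⟩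
        apply hPc.mul_dvd
        · have h3 := dvd_sub (ha1 j).2.2 (hc1 b j)
          rwa [sub_sub_sub_cancel_right] at h3
        · have h4 : P ∣ a j - b j := by
            rw [← ha2]
            exact res_mod P (a j)
          have h3 := dvd_sub h4 (hc2 b j)
          rwa [sub_sub_sub_cancel_right] at h3
      have h3 := ih hQ' hper' (W * P) (c b) hWP hcop' (by rw [hWPd]; omega)
      have h4 : ((BF g N r (W * P) (c b)).card : ℝ) =
          ((BF g N r W A).card : ℝ) / (nm P : ℝ) ^ (2 * g) := by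
        have e1 := card_BF (g := g) (r := r) (A := A) hW (show W.natDegree ≤ 4 * N by omega)
        have e2 := card_BF (g := g) (r := r) (A := c b) hWP
          (show (W * P).natDegree ≤ 4 * N by rw [hWPd]; omega)
        have e3 : nm (W * P) = nm W * nm P := nm_mul hW hPm.ne_zero
        have p1 : (0 : ℝ) < nm W := by exact_mod_cast nm_pos W
        have p2 : (0 : ℝ) < nm P := by exact_mod_cast nm_pos P
        rw [e3, Nat.cast_mul, mul_pow, ← e1] at e2
        rw [eq_div_iff (by positivity)]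
        have p3 : ((nm W : ℝ) ^ (2 * g)) ≠ 0 := by positivity
        apply mul_right_cancel₀ p3
        rw [← e2]
        ring
      rw [h1]
      refine mul_le_mul_of_nonneg_left (h2.trans (h3.trans (le_of_eq ?_))) (h0 P b)
      rw [h4]
    refine (Finset.sum_le_sum hstep).trans (le_of_eq ?_)
    rw [← Finset.sum_mul, Finset.prod_insert hP]
    unfold av
    ring

/-! ### The primes of the type -/

/-- The primes `Q` in `𝒬` for which `f` is `x` times an irreducible polynomial modulo `Q`. -/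
noncomputable def SE (𝒬 : Finset k[X]) (f : k[X][X]) : Finset k[X] := 𝒬.filter fun Q => Ty Q f

/-- The residues of the type as a finset. -/
noncomputable def TS (g : ℕ) (Q : k[X]) : Finset (Fin (2 * g) → k[X]) := (tf_fin g Q).toFinset

theorem mem_TS {g : ℕ} {Q : k[X]} {b : Fin (2 * g) → k[X]} : b ∈ TS g Q ↔ b ∈ TF g Q := by
  unfold TS
  rw [Set.Finite.mem_toFinset]

theorem card_TS (g : ℕ) (Q : k[X]) : (TS g Q).card = (TF g Q).ncard := by
  rw [Set.ncard_eq_toFinset_card _ (tf_fin g Q)]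
  rfl

theorem TS_eq (g : ℕ) (Q : k[X]) : TS g Q = (RF g Q).filter fun b => Ty Q (pol b) := by
  ext b
  rw [mem_TS, Finset.mem_filter, mem_RF]
  rfl

/-- The probability of the type. -/
noncomputable def rho (g : ℕ) (Q : k[X]) : ℝ := ((TF g Q).ncard : ℝ) / (nm Q : ℝ) ^ (2 * g)

theorem rho_nonneg (g : ℕ) (Q : k[X]) : 0 ≤ rho g Q := by
  unfold rho
  positivity

theorem rho_le {g : ℕ} (hg : 1 ≤ g) {Q : k[X]} (hi : Irreducible Q) : rho g Q ≤ 1 / nm Q := by
  have h := tf_le hg hi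
  have p : (0 : ℝ) < nm Q := by exact_mod_cast nm_pos Q
  unfold rho
  rw [div_le_div_iff₀ (by positivity) p, one_mul, mul_comm]
  exact_mod_cast h

theorem rho_le_one {g : ℕ} (hg : 1 ≤ g) {Q : k[X]} (hi : Irreducible Q) : rho g Q ≤ 1 := by
  refine (rho_le hg hi).trans ?_
  have p : (1 : ℝ) ≤ nm Q := by exact_mod_cast nm_pos Q
  rw [div_le_one (by linarith)]
  exact p

theorem rho_ge {g : ℕ} (hg : 1 ≤ g) (hk : ((2 * g + 1).factorial : k) ≠ 0) {Q : k[X]}
    (hm : Q.Monic) (hi : Irreducible Q) : 1 / (4 * g * nm Q) ≤ rho g Q := by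
  have h := tf_ge hg hk hm hi
  have p : (0 : ℝ) < nm Q := by exact_mod_cast nm_pos Q
  have p' : (0 : ℝ) < g := by exact_mod_cast hg
  unfold rho
  rw [div_le_div_iff₀ (by positivity) (by positivity), one_mul]
  have h' : (nm Q : ℝ) ^ (2 * g) ≤ 4 * g * (nm Q * (TF g Q).ncard) := by exact_mod_cast h
  calc (nm Q : ℝ) ^ (2 * g) ≤ 4 * g * (nm Q * (TF g Q).ncard) := h'
    _ = _ := by ring

/-- The type depends only on the residues. -/
theorem ty_congr {g : ℕ} {Q : k[X]} {a b : Fin (2 * g) → k[X]} (hg : 1 ≤ g)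
    (h : ∀ j, Q ∣ a j - b j) :
    Ty Q (pol a) ↔ Ty Q (pol b) := by
  have h1 : (pol a).divX.map (Ideal.Quotient.mk (Ideal.span {Q})) =
      (pol b).divX.map (Ideal.Quotient.mk (Ideal.span {Q})) := by
    ext j
    rw [coeff_map, coeff_map, coeff_divX, coeff_divX, pol_coeff, pol_coeff]
    split_ifs with h1 h2
    · rfl
    · exact Ideal.Quotient.eq.2 (Ideal.mem_span_singleton.2 (h _))
    · rfl
  have h2 : Q ∣ (pol a).coeff 0 ↔ Q ∣ (pol b).coeff 0 := by
    rw [pol_coeff, pol_coeff, if_neg (by omega), if_neg (by omega), dif_pos (by omega),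
      dif_pos (by omega)]
    exact (dvd_iff_dvd_of_dvd_sub (h _))
  unfold Ty
  rw [h1, h2]

/-- The weight. -/
noncomputable def wt (g : ℕ) (u : ℝ) (Q : k[X]) (a : Fin (2 * g) → k[X]) : ℝ :=
  if Ty Q (pol a) then u else 1

theorem wt_nonneg {g : ℕ} {u : ℝ} (hu : 0 ≤ u) (Q : k[X]) (a : Fin (2 * g) → k[X]) :
    0 ≤ wt g u Q a := by
  unfold wt
  split_ifs
  · exact hu
  · exact zero_le_one

theorem wt_per {g : ℕ} (hg : 1 ≤ g) (u : ℝ) (Q : k[X]) : Per g Q (wt g u Q) := by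
  intro a b h
  unfold wt
  by_cases h1 : Ty Q (pol a)
  · rw [if_pos h1, if_pos ((ty_congr hg h).1 h1)]
  · rw [if_neg h1, if_neg fun h2 => h1 ((ty_congr hg h).2 h2)]

theorem prod_wt (g : ℕ) (u : ℝ) (𝒬 : Finset k[X]) (a : Fin (2 * g) → k[X]) :
    ∏ Q ∈ 𝒬, wt g u Q a = u ^ (SE 𝒬 (pol a)).card := by
  unfold wt SE
  rw [Finset.prod_ite, Finset.prod_const, Finset.prod_const_one, mul_one]

theorem av_wt (g : ℕ) (u : ℝ) (Q : k[X]) : av g Q (wt g u Q) = 1 - (1 - u) * rho g Q := by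
  have p : (0 : ℝ) < nm Q := by exact_mod_cast nm_pos Q
  have h1 : ∑ b ∈ RF g Q, wt g u Q b = (nm Q : ℝ) ^ (2 * g) - (1 - u) * (TF g Q).ncard := by
    have h2 : ∀ b ∈ RF g Q, wt g u Q b = 1 - (1 - u) * (if Ty Q (pol b) then 1 else 0) := by
      intro b _
      unfold wt
      split_ifs <;> ring
    rw [Finset.sum_congr rfl h2, Finset.sum_sub_distrib, Finset.sum_const, ← Finset.mul_sum,
      Finset.sum_boole, nsmul_eq_mul, mul_one, card_RF, ← TS_eq, card_TS]
    push_cast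
    ring
  unfold av rho
  rw [h1]
  field_simp

/-- **Few tuples with few primes of the type.** -/
theorem few1 {g N : ℕ} (hg : 1 ≤ g) {r : k[X]} {𝒬 : Finset k[X]}
    (hQ : ∀ Q ∈ 𝒬, Q.Monic ∧ Irreducible Q) {u : ℝ} (hu : 0 < u) (hu1 : u ≤ 1) (s : ℕ)
    (hN : ∑ Q ∈ 𝒬, Q.natDegree ≤ 4 * N) :
    u ^ s * (((BF g N r 1 (fun _ => 0)).filter fun a => (SE 𝒬 (pol a)).card < s).card : ℝ) ≤
      (Nat.card k : ℝ) ^ (2 * N * dd g) * ∏ Q ∈ 𝒬, (1 - (1 - u) * rho g Q) := by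
  have h1 : u ^ s * (((BF g N r 1 (fun _ => 0)).filter fun a => (SE 𝒬 (pol a)).card < s).card : ℝ) ≤
      ∑ a ∈ BF g N r 1 (fun _ => 0), ∏ Q ∈ 𝒬, wt g u Q a := by
    have h2 : ∑ a ∈ (BF g N r 1 (fun _ => 0)).filter (fun a => (SE 𝒬 (pol a)).card < s), u ^ s ≤
        ∑ a ∈ (BF g N r 1 (fun _ => 0)).filter (fun a => (SE 𝒬 (pol a)).card < s),
          ∏ Q ∈ 𝒬, wt g u Q a := by
      refine Finset.sum_le_sum fun a ha => ?_
      rw [prod_wt]
      exact pow_le_pow_of_le_one hu.le hu1 (Finset.mem_filter.1 ha).2.le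
    rw [Finset.sum_const, nsmul_eq_mul, mul_comm] at h2
    refine h2.trans (Finset.sum_le_sum_of_subset_of_nonneg (Finset.filter_subset _ _) fun a _ _ => ?_)
    exact Finset.prod_nonneg fun Q _ => wt_nonneg hu.le Q a
  refine h1.trans ?_
  have h2 := sum_weights (g := g) (N := N) (r := r) (w := wt g u) (fun Q a => wt_nonneg hu.le Q a)
    𝒬 hQ (fun Q _ => wt_per hg u Q) 1 (fun _ => 0) one_ne_zero (fun Q _ => isCoprime_one_left)
    (by rw [natDegree_one]; omega)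
  refine h2.trans (le_of_eq ?_)
  have h3 := card_BF (g := g) (N := N) (r := r) (W := 1) (A := fun _ => 0) one_ne_zero (by simp)
  have h4 : nm (1 : k[X]) = 1 := by
    unfold nm
    rw [natDegree_one, pow_zero]
  rw [h4, Nat.cast_one, one_pow, mul_one] at h3
  rw [h3]
  congr 1
  exact Finset.prod_congr rfl fun Q _ => av_wt g u Q

/-- **Few tuples with a product of large degree of the primes of the type.** -/
theorem few3 {g N : ℕ} (hg : 1 ≤ g) {r : k[X]} {𝒬 : Finset k[X]}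
    (hQ : ∀ Q ∈ 𝒬, Q.Monic ∧ Irreducible Q) (D : ℕ)
    (hN : ∀ Q ∈ 𝒬, Q.natDegree ≤ 4 * N) :
    (D : ℝ) * (((BF g N r 1 (fun _ => 0)).filter fun a =>
      D < ∑ Q ∈ SE 𝒬 (pol a), Q.natDegree).card : ℝ) ≤
      (Nat.card k : ℝ) ^ (2 * N * dd g) * ∑ Q ∈ 𝒬, (Q.natDegree : ℝ) / nm Q := by
  obtain ⟨v, hv⟩ : ∃ v : k[X] → (Fin (2 * g) → k[X]) → ℝ,
      v = fun Q a => if Ty Q (pol a) then 1 else 0 := ⟨_, rfl⟩
  have hv0 : ∀ Q a, 0 ≤ v Q a := by
    intro Q a
    rw [hv]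
    simp only
    split_ifs
    · exact zero_le_one
    · exact le_rfl
  have h1 : (D : ℝ) * (((BF g N r 1 (fun _ => 0)).filter fun a =>
      D < ∑ Q ∈ SE 𝒬 (pol a), Q.natDegree).card : ℝ) ≤
      ∑ a ∈ BF g N r 1 (fun _ => 0), ∑ Q ∈ 𝒬, (Q.natDegree : ℝ) * v Q a := by
    have h2 : ∑ a ∈ (BF g N r 1 (fun _ => 0)).filter (fun a =>
        D < ∑ Q ∈ SE 𝒬 (pol a), Q.natDegree), (D : ℝ) ≤
        ∑ a ∈ (BF g N r 1 (fun _ => 0)).filter (fun a => D < ∑ Q ∈ SE 𝒬 (pol a), Q.natDegree),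
          ∑ Q ∈ 𝒬, (Q.natDegree : ℝ) * v Q a := by
      refine Finset.sum_le_sum fun a ha => ?_
      have h3 := (Finset.mem_filter.1 ha).2.le
      have h4 : ∑ Q ∈ 𝒬, (Q.natDegree : ℝ) * v Q a =
          ((∑ Q ∈ SE 𝒬 (pol a), Q.natDegree : ℕ) : ℝ) := by
        unfold SE
        rw [Finset.sum_filter, Nat.cast_sum]
        refine Finset.sum_congr rfl fun Q _ => ?_
        rw [hv]
        simp only
        split_ifs <;> simp
      rw [h4]
      exact_mod_cast h3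
    rw [Finset.sum_const, nsmul_eq_mul, mul_comm] at h2
    refine h2.trans (Finset.sum_le_sum_of_subset_of_nonneg (Finset.filter_subset _ _) fun a _ _ => ?_)
    exact Finset.sum_nonneg fun Q _ => mul_nonneg (Nat.cast_nonneg _) (hv0 Q a)
  refine h1.trans ?_
  rw [Finset.sum_comm, Finset.mul_sum]
  refine Finset.sum_le_sum fun Q hQ' => ?_
  rw [← Finset.mul_sum]
  obtain ⟨hm, hi⟩ := hQ Q hQ'
  have h2 := sum_weights (g := g) (N := N) (r := r) (w := v) hv0 {Q}
    (fun P hP => by rw [Finset.mem_singleton.1 hP]; exact ⟨hm, hi⟩)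
    (fun P hP => by
      intro a b hab
      rw [hv]
      simp only
      by_cases h1 : Ty P (pol a)
      · rw [if_pos h1, if_pos ((ty_congr hg hab).1 h1)]
      · rw [if_neg h1, if_neg fun h2 => h1 ((ty_congr hg hab).2 h2)])
    1 (fun _ => 0) one_ne_zero (fun Q _ => isCoprime_one_left)
    (by rw [natDegree_one, Finset.sum_singleton, zero_add]; exact hN Q hQ')
  simp only [Finset.prod_singleton] at h2
  have h3 := card_BF (g := g) (N := N) (r := r) (W := 1) (A := fun _ => 0) one_ne_zero (by simp)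
  have h4 : nm (1 : k[X]) = 1 := by
    unfold nm
    rw [natDegree_one, pow_zero]
  rw [h4, Nat.cast_one, one_pow, mul_one] at h3
  have h5 : av g Q (v Q) = rho g Q := by
    unfold av rho
    rw [hv]
    simp only
    rw [Finset.sum_boole, ← TS_eq, card_TS]
  rw [h3, h5] at h2
  have h6 := rho_le hg hi
  calc (Q.natDegree : ℝ) * ∑ a ∈ BF g N r 1 (fun _ => 0), v Q a
      ≤ Q.natDegree * ((Nat.card k : ℝ) ^ (2 * N * dd g) * rho g Q) :=
        mul_le_mul_of_nonneg_left h2 (Nat.cast_nonneg _)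
    _ ≤ Q.natDegree * ((Nat.card k : ℝ) ^ (2 * N * dd g) * (1 / nm Q)) := by gcongr
    _ = _ := by ring

end Pool.Agent.Helper28H.FF
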