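import Pool.Agent.Helper28H.FF.Avg

/-!
# Few bad polynomials with many primes of the type
-/

set_option autoImplicit false
set_option linter.all false

open Polynomial Filter
open scoped Classical

namespace Pool.Agent.Helper28H.FF

open Pool.Agent.N352.PJ Pool.Agent.N615.JM
open Pool.Agent.N874.PP (nm)
open Pool.Agent.N490.PP.Fam (q_pos)

variable {k : Type} [Field k] [Finite k]

/-- Monic polynomials of degree `2 g + 1` without the term of degree `2 g`. -/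
structure Mo (g : ℕ) (f : k[X][X]) : Prop where
  mon : f.Monic
  deg : f.natDegree = 2 * g + 1
  tr : f.coeff (2 * g) = 0

theorem mo_pol {g : ℕ} (a : Fin (2 * g) → k[X]) : Mo g (pol a) := ⟨pol_monic a, pol_deg a, pol_tr a⟩

theorem Mo.eq {g : ℕ} {f : k[X][X]} (h : Mo g f) : pol (fun j : Fin (2 * g) => f.coeff j) = f :=
  pol_eq h.mon h.deg h.tr

theorem divX_good {g : ℕ} (hg : 1 ≤ g) {f : k[X][X]} (h : Mo g f) :
    f.divX.Monic ∧ f.divX.natDegree = 2 * g ∧ f.divX.coeff (2 * g - 1) = 0 := by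
  have h1 : f.divX.natDegree = 2 * g := by
    rw [natDegree_divX_eq_natDegree_tsub_one, h.deg]
    omega
  refine ⟨?_, h1, ?_⟩
  · rw [Monic, leadingCoeff, h1, coeff_divX, ← h.deg]
    exact h.mon.coeff_natDegree
  · rw [coeff_divX]
    have e : 2 * g - 1 + 1 = 2 * g := by omega
    rw [e, h.tr]

/-- The set of the primes and the residues. -/
theorem goodS_of {g : ℕ} (hg : 1 ≤ g) {f : k[X][X]} (h : Mo g f) {S : Finset k[X]}
    (hS : ∀ Q ∈ S, Q.Monic ∧ Irreducible Q ∧ Ty Q f) : GoodS g S (fun _ => f.divX) := by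
  intro Q hQ
  obtain ⟨h1, h2, h3⟩ := hS Q hQ
  obtain ⟨h4, h5, h6⟩ := divX_good hg h
  exact ⟨h1, h2, h4, h5, h6, h3.2⟩

/-- The reduced residues of `f`. -/
noncomputable def red (g : ℕ) (f : k[X][X]) (Q : k[X]) : Fin (2 * g) → k[X] :=
  fun j => f.coeff j % Q

theorem red_mem {g : ℕ} (hg : 1 ≤ g) {f : k[X][X]} (h : Mo g f) {Q : k[X]} (hQ : Q ≠ 0)
    (ht : Ty Q f) : red g f Q ∈ TF g Q := by
  refine ⟨mod_rd hQ (fun j => f.coeff j), ?_⟩
  rw [← h.eq] at ht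
  exact (ty_congr hg fun j => res_mod Q (f.coeff j)).1 ht

/-- `X` times `divX` of a polynomial whose constant term is divisible by `Q`. -/
theorem cg_divX {g : ℕ} (hg : 1 ≤ g) {f : k[X][X]} (h : Mo g f) {Q : k[X]} (ht : Ty Q f)
    {b : Fin (2 * g) → k[X]} (hb : ∀ j : Fin (2 * g), Q ∣ f.coeff j - b j) :
    Cg Q f (X * (pol b).divX) := by
  intro j
  rcases j with _ | j
  · rw [mul_coeff_zero, coeff_X_zero, zero_mul, sub_zero]
    exact ht.1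
  · rw [coeff_X_mul, coeff_divX, ← h.eq, pol_coeff, pol_coeff]
    split_ifs with h1 h2
    · rw [sub_self]
      exact dvd_zero _
    · exact hb ⟨j + 1, h2⟩
    · rw [sub_self]
      exact dvd_zero _

/-- The index set. -/
noncomputable def II (g : ℕ) (𝒬 : Finset k[X]) :
    Finset (Σ S : Finset k[X], ∀ Q ∈ S, Fin (2 * g) → k[X]) :=
  𝒬.powerset.sigma fun S => S.pi fun Q => TS g Q

/-- The residues of the class `i`. -/
noncomputable def hh {g : ℕ} (i : Σ S : Finset k[X], ∀ Q ∈ S, Fin (2 * g) → k[X]) :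
    k[X] → k[X][X] := fun Q => if hQ : Q ∈ i.1 then (pol (i.2 Q hQ)).divX else 0

/-- The set of the bad polynomials of the class `i`. -/
def LL (g N : ℕ) (i : Σ S : Finset k[X], ∀ Q ∈ S, Fin (2 * g) → k[X]) : Set k[X][X] :=
  {f | LBad g N i.1 (hh i) f}

/-- The bad polynomials with many primes of the type. -/
def BB (g N : ℕ) (𝒬 : Finset k[X]) (s : ℕ) : Set k[X][X] :=
  {f | Mo g f ∧ s ≤ (SE 𝒬 f).card ∧ LBad g N (SE 𝒬 f) (fun _ => f.divX) f}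

theorem hh_good {g : ℕ} (hg : 1 ≤ g) {𝒬 : Finset k[X]} (hQ : ∀ Q ∈ 𝒬, Q.Monic ∧ Irreducible Q)
    {i : Σ S : Finset k[X], ∀ Q ∈ S, Fin (2 * g) → k[X]} (hi : i ∈ II g 𝒬) :
    GoodS g i.1 (hh i) := by
  unfold II at hi
  rw [Finset.mem_sigma, Finset.mem_powerset, Finset.mem_pi] at hi
  intro Q hQi
  obtain ⟨h1, h2⟩ := hQ Q (hi.1 hQi)
  have h3 := mem_TS.1 (hi.2 Q hQi)
  obtain ⟨h4, h5, h6⟩ := divX_good hg (mo_pol (i.2 Q hQi))
  unfold hh
  rw [dif_pos hQi]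
  exact ⟨h1, h2, h4, h5, h6, h3.2.2⟩

/-- Subsets and classes. -/
theorem mem_LL {g N : ℕ} (hg : 1 ≤ g) {𝒬 : Finset k[X]} (hQ : ∀ Q ∈ 𝒬, Q.Monic ∧ Irreducible Q)
    {f : k[X][X]} (hf : Mo g f) (h : LBad g N (SE 𝒬 f) (fun _ => f.divX) f) {S : Finset k[X]}
    (hS : S ⊆ SE 𝒬 f) :
    (⟨S, fun Q _ => red g f Q⟩ : Σ S : Finset k[X], ∀ Q ∈ S, Fin (2 * g) → k[X]) ∈ II g 𝒬 ∧
    f ∈ LL g N ⟨S, fun Q _ => red g f Q⟩ := by
  have hSQ : S ⊆ 𝒬 := hS.trans (Finset.filter_subset _ _)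
  constructor
  · unfold II
    rw [Finset.mem_sigma, Finset.mem_powerset, Finset.mem_pi]
    refine ⟨hSQ, fun Q hQS => ?_⟩
    rw [mem_TS]
    exact red_mem hg hf (hQ Q (hSQ hQS)).1.ne_zero (Finset.mem_filter.1 (hS hQS)).2
  · obtain ⟨h1, w, h2, h3, B, hB, hBf⟩ := h
    refine ⟨h1, w, h2, h3, B, ⟨hB.symm, hB.tr, hB.box, fun Q hQS => ?_,
      fun Q hQS => hB.dist Q (hS hQS)⟩, hBf⟩
    rw [hBf]
    unfold hh
    rw [dif_pos hQS]
    exact cg_divX hg hf (Finset.mem_filter.1 (hS hQS)).2 fun j => res_mod Q (f.coeff j)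

/-- Double counting. -/
theorem double {g N : ℕ} (hg : 1 ≤ g) {𝒬 : Finset k[X]} (hQ : ∀ Q ∈ 𝒬, Q.Monic ∧ Irreducible Q)
    {s : ℕ} (hfin : ∀ i ∈ II g 𝒬, (LL g N i).Finite) :
    (BB g N 𝒬 s).Finite ∧ 2 ^ s * (BB g N 𝒬 s).ncard ≤ ∑ i ∈ II g 𝒬, (LL g N i).ncard := by
  have hBf : (BB g N 𝒬 s).Finite := by
    refine (Set.Finite.biUnion (II g 𝒬).finite_toSet hfin).subset ?_
    rintro f ⟨hm, -, h⟩
    have := mem_LL hg hQ hm h (subset_refl _)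
    exact Set.mem_biUnion this.1 this.2
  refine ⟨hBf, ?_⟩
  rw [Set.ncard_eq_toFinset_card _ hBf]
  have h1 : ∀ f ∈ hBf.toFinset, 2 ^ s ≤ ∑ i ∈ II g 𝒬, if f ∈ LL g N i then 1 else 0 := by
    intro f hp
    obtain ⟨hm, hs, hb⟩ := hBf.mem_toFinset.1 hp
    rw [← Finset.card_filter]
    calc 2 ^ s ≤ 2 ^ (SE 𝒬 f).card := Nat.pow_le_pow_right (by norm_num) hs
      _ = (SE 𝒬 f).powerset.card := (Finset.card_powerset _).symm
      _ ≤ _ := by
        refine Finset.card_le_card_of_injOn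
          (fun S => (⟨S, fun Q _ => red g f Q⟩ :
            Σ S : Finset k[X], ∀ Q ∈ S, Fin (2 * g) → k[X])) ?_ ?_
        · intro S hS
          have := mem_LL hg hQ hm hb (Finset.mem_powerset.1 hS)
          exact Finset.mem_coe.2 (Finset.mem_filter.2 this)
        · intro S _ S' _ h
          exact congrArg Sigma.fst h
  calc 2 ^ s * hBf.toFinset.card = ∑ p ∈ hBf.toFinset, 2 ^ s := by
        rw [Finset.sum_const, smul_eq_mul, mul_comm]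
    _ ≤ ∑ p ∈ hBf.toFinset, ∑ i ∈ II g 𝒬, (if p ∈ LL g N i then 1 else 0) := Finset.sum_le_sum h1
    _ = ∑ i ∈ II g 𝒬, ∑ p ∈ hBf.toFinset, (if p ∈ LL g N i then 1 else 0) := Finset.sum_comm
    _ ≤ ∑ i ∈ II g 𝒬, (LL g N i).ncard := by
        refine Finset.sum_le_sum fun i hi => ?_
        rw [← Finset.card_filter, Set.ncard_eq_toFinset_card _ (hfin i hi)]
        refine Finset.card_le_card fun p hp => ?_
        exact (hfin i hi).mem_toFinset.2 (Finset.mem_filter.1 hp).2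

/-- **Few bad polynomials with many primes of the type.** -/
theorem bad2 (hBAD : S_BAD) {g : ℕ} (hg : 1 ≤ g) (h2 : (2 : k) ≠ 0) {𝒬 : Finset k[X]}
    (hQ : ∀ Q ∈ 𝒬, Q.Monic ∧ Irreducible Q) (s : ℕ) : ∀ᶠ N : ℕ in atTop,
    (BB g N 𝒬 s).Finite ∧ (2 : ℝ) ^ s * ((BB g N 𝒬 s).ncard : ℝ) ≤
      2 ^ (g + 1) * (Nat.card k : ℝ) ^ ((2 * N + 1) * dd g) * ∏ Q ∈ 𝒬, (1 + rho g Q / 2) := by
  have hev : ∀ᶠ N : ℕ in atTop, ∀ i ∈ II g 𝒬, (LL g N i).Finite ∧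
      2 ^ i.1.card * (∏ Q ∈ i.1, nm Q ^ (2 * g)) * (LL g N i).ncard ≤
        2 ^ (g + 1) * Nat.card k ^ ((2 * N + 1) * dd g) := by
    rw [Filter.eventually_all_finset]
    intro i hi
    obtain ⟨N₀, h⟩ := hBAD g k hg h2 i.1 (hh i) (hh_good hg hQ hi)
    filter_upwards [eventually_ge_atTop N₀] with N hN
    exact h N hN
  filter_upwards [hev] with N hN
  obtain ⟨h3, h4⟩ := double hg hQ (N := N) (s := s) fun i hi => (hN i hi).1
  refine ⟨h3, ?_⟩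
  obtain ⟨M, hM⟩ : ∃ M : ℝ, M = 2 ^ (g + 1) * (Nat.card k : ℝ) ^ ((2 * N + 1) * dd g) := ⟨_, rfl⟩
  have hM0 : 0 ≤ M := by
    rw [hM]
    positivity
  rw [← hM]
  have h5 : (2 : ℝ) ^ s * ((BB g N 𝒬 s).ncard : ℝ) ≤ ∑ i ∈ II g 𝒬, ((LL g N i).ncard : ℝ) := by
    exact_mod_cast h4
  refine h5.trans ?_
  have h6 : ∀ i ∈ II g 𝒬, ((LL g N i).ncard : ℝ) ≤
      M / ∏ Q ∈ i.1, (2 * (nm Q : ℝ) ^ (2 * g)) := by
    intro i hi
    have hpos : (0 : ℝ) < ∏ Q ∈ i.1, (2 * (nm Q : ℝ) ^ (2 * g)) := by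
      refine Finset.prod_pos fun Q _ => ?_
      have : (0 : ℝ) < nm Q := by exact_mod_cast nm_pos Q
      positivity
    rw [le_div_iff₀ hpos, Finset.prod_mul_distrib, Finset.prod_const]
    have h7 := (hN i hi).2
    have h8 : ((2 ^ i.1.card * (∏ Q ∈ i.1, nm Q ^ (2 * g)) * (LL g N i).ncard : ℕ) : ℝ) ≤
        ((2 ^ (g + 1) * Nat.card k ^ ((2 * N + 1) * dd g) : ℕ) : ℝ) := by exact_mod_cast h7
    push_cast at h8
    rw [hM]
    linarith
  refine (Finset.sum_le_sum h6).trans ?_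
  unfold II
  rw [Finset.sum_sigma, Finset.prod_one_add, Finset.mul_sum]
  refine Finset.sum_le_sum fun S hS => ?_
  show ∑ _c ∈ S.pi fun Q => TS g Q, M / ∏ Q ∈ S, (2 * (nm Q : ℝ) ^ (2 * g)) ≤ _
  rw [Finset.sum_const, nsmul_eq_mul, Finset.card_pi]
  refine le_of_eq ?_
  have e : ∏ Q ∈ S, rho g Q / 2 =
      (∏ Q ∈ S, ((TF g Q).ncard : ℝ)) / ∏ Q ∈ S, (2 * (nm Q : ℝ) ^ (2 * g)) := by
    rw [← Finset.prod_div_distrib]
    refine Finset.prod_congr rfl fun Q _ => ?_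
    unfold rho
    rw [div_div, mul_comm ((nm Q : ℝ) ^ (2 * g))]
  rw [e, Nat.cast_prod]
  simp only [card_TS]
  ring

end Pool.Agent.Helper28H.FF
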