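import Pool.Agent.Helper28H.FF.Bad

/-!
# For almost all polynomials there is a set of primes of small degree, for which it is not bad
-/

set_option autoImplicit false
set_option linter.all false

open Polynomial Filter
open scoped Classical

namespace Pool.Agent.Helper28H.FF

open Pool.Agent.N352.PJ Pool.Agent.N615.JM
open Pool.Agent.N874.PP (nm)
open Pool.Agent.N490.PP.Fam (Irr Irr_finite Irr_mul_le q_pos)

variable {k : Type} [Field k] [Finite k]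

/-- The sum of the probabilities. -/
noncomputable def RR (g : ℕ) (𝒬 : Finset k[X]) : ℝ := ∑ Q ∈ 𝒬, rho g Q

theorem RR_nonneg (g : ℕ) (𝒬 : Finset k[X]) : 0 ≤ RR g 𝒬 :=
  Finset.sum_nonneg fun Q _ => rho_nonneg g Q

/-- The first estimate. -/
theorem est1 {g N : ℕ} (hg : 1 ≤ g) (r : k[X]) {𝒬 : Finset k[X]}
    (hQ : ∀ Q ∈ 𝒬, Q.Monic ∧ Irreducible Q) (hN : ∑ Q ∈ 𝒬, Q.natDegree ≤ 4 * N) :
    (((BF g N r 1 (fun _ => 0)).filter fun a =>
      (SE 𝒬 (pol a)).card < ⌊4 / 5 * RR g 𝒬⌋₊).card : ℝ) ≤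
      (Nat.card k : ℝ) ^ (2 * N * dd g) * Real.exp (-(1 / 125) * RR g 𝒬) := by
  have h := few1 hg (r := r) hQ (u := 4 / 5) (by norm_num) (by norm_num) ⌊4 / 5 * RR g 𝒬⌋₊ hN
  have hl := RR_nonneg g 𝒬
  have hs : ((⌊4 / 5 * RR g 𝒬⌋₊ : ℕ) : ℝ) ≤ 4 / 5 * RR g 𝒬 := Nat.floor_le (by linarith)
  have hq : (0 : ℝ) ≤ (Nat.card k : ℝ) ^ (2 * N * dd g) := by positivity
  -- the product
  have h1 : ∏ Q ∈ 𝒬, (1 - (1 - (4 / 5 : ℝ)) * rho g Q) ≤ Real.exp (-(1 / 5) * RR g 𝒬) := by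
    have h2 : ∀ Q ∈ 𝒬, (1 - (1 - (4 / 5 : ℝ)) * rho g Q) ≤ Real.exp (-(1 / 5) * rho g Q) := by
      intro Q _
      have h3 := Real.add_one_le_exp (-(1 / 5) * rho g Q)
      refine le_trans (le_of_eq ?_) h3
      ring
    have h4 : ∀ Q ∈ 𝒬, 0 ≤ (1 - (1 - (4 / 5 : ℝ)) * rho g Q) := by
      intro Q hQ'
      have := rho_le_one hg (hQ Q hQ').2
      linarith
    refine (Finset.prod_le_prod h4 h2).trans ?_
    rw [← Real.exp_sum, Real.exp_le_exp, ← Finset.mul_sum]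
    exact le_rfl
  -- the power
  have h5 : (4 / 5 : ℝ) ^ ⌊4 / 5 * RR g 𝒬⌋₊ ≥ Real.exp (-(24 / 125) * RR g 𝒬) := by
    have h6 : Real.exp (-(6 / 25 : ℝ)) ≤ 4 / 5 := by
      have h7 := Real.quadratic_le_exp_of_nonneg (show (0 : ℝ) ≤ 6 / 25 by norm_num)
      rw [Real.exp_neg, inv_le_comm₀ (Real.exp_pos _) (by norm_num)]
      refine le_trans ?_ h7
      norm_num
    calc Real.exp (-(24 / 125) * RR g 𝒬)
        ≤ Real.exp (-(6 / 25) * ((⌊4 / 5 * RR g 𝒬⌋₊ : ℕ) : ℝ)) := by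
          rw [Real.exp_le_exp]
          linarith
      _ = Real.exp (-(6 / 25 : ℝ)) ^ ⌊4 / 5 * RR g 𝒬⌋₊ := by
          rw [← Real.exp_nat_mul]
          congr 1
          ring
      _ ≤ (4 / 5 : ℝ) ^ ⌊4 / 5 * RR g 𝒬⌋₊ := pow_le_pow_left₀ (Real.exp_pos _).le h6 _
  obtain ⟨B, hB⟩ : ∃ B : ℝ, B = (((BF g N r 1 (fun _ => 0)).filter fun a =>
      (SE 𝒬 (pol a)).card < ⌊4 / 5 * RR g 𝒬⌋₊).card : ℝ) := ⟨_, rfl⟩
  rw [← hB] at h ⊢
  have hB0 : 0 ≤ B := by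
    rw [hB]
    exact Nat.cast_nonneg _
  have h8 : Real.exp (-(24 / 125) * RR g 𝒬) * B ≤
      (Nat.card k : ℝ) ^ (2 * N * dd g) * Real.exp (-(1 / 5) * RR g 𝒬) := by
    refine (mul_le_mul_of_nonneg_right h5 hB0).trans (h.trans ?_)
    exact mul_le_mul_of_nonneg_left h1 hq
  have h11 : (Nat.card k : ℝ) ^ (2 * N * dd g) * Real.exp (-(1 / 5) * RR g 𝒬) =
      Real.exp (-(24 / 125) * RR g 𝒬) *
        ((Nat.card k : ℝ) ^ (2 * N * dd g) * Real.exp (-(1 / 125) * RR g 𝒬)) := by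
    have e : -(1 / 5) * RR g 𝒬 = -(24 / 125) * RR g 𝒬 + -(1 / 125) * RR g 𝒬 := by ring
    rw [e, Real.exp_add]
    ring
  rw [h11] at h8
  exact le_of_mul_le_mul_left h8 (Real.exp_pos _)

/-- The constant. -/
noncomputable def K0 (k : Type) [Field k] (g : ℕ) : ℝ := 2 * (2 ^ (g + 1) * (Nat.card k : ℝ) ^ dd g)

/-- The second estimate. -/
theorem est2 (hBAD : S_BAD) {g : ℕ} (hg : 1 ≤ g) (h2 : (2 : k) ≠ 0) {𝒬 : Finset k[X]}
    (hQ : ∀ Q ∈ 𝒬, Q.Monic ∧ Irreducible Q) : ∀ᶠ N : ℕ in atTop,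
    (BB g N 𝒬 ⌊4 / 5 * RR g 𝒬⌋₊).Finite ∧
    ((BB g N 𝒬 ⌊4 / 5 * RR g 𝒬⌋₊).ncard : ℝ) ≤
      K0 k g * (Nat.card k : ℝ) ^ (2 * N * dd g) * Real.exp (-(1 / 125) * RR g 𝒬) := by
  filter_upwards [bad2 hBAD hg h2 hQ ⌊4 / 5 * RR g 𝒬⌋₊] with N hN
  refine ⟨hN.1, ?_⟩
  have hl := RR_nonneg g 𝒬
  have h1 : ∏ Q ∈ 𝒬, (1 + rho g Q / 2) ≤ Real.exp (1 / 2 * RR g 𝒬) := by
    have h2 : ∀ Q ∈ 𝒬, 1 + rho g Q / 2 ≤ Real.exp (1 / 2 * rho g Q) := by
      intro Q _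
      have h3 := Real.add_one_le_exp (1 / 2 * rho g Q)
      refine le_trans (le_of_eq ?_) h3
      ring
    refine (Finset.prod_le_prod (fun Q _ => ?_) h2).trans ?_
    · have := rho_nonneg g Q
      positivity
    rw [← Real.exp_sum, Real.exp_le_exp, ← Finset.mul_sum]
    exact le_rfl
  have h2 : Real.exp (554 / 1000 * RR g 𝒬) ≤ 2 * (2 : ℝ) ^ ⌊4 / 5 * RR g 𝒬⌋₊ := by
    have h3 := Nat.lt_floor_add_one (4 / 5 * RR g 𝒬)
    have h4 := Real.log_two_gt_d9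
    have e : 2 * (2 : ℝ) ^ ⌊4 / 5 * RR g 𝒬⌋₊ =
        Real.exp (Real.log 2 * (((⌊4 / 5 * RR g 𝒬⌋₊ : ℕ) : ℝ) + 1)) := by
      have e2 : Real.log 2 * (((⌊4 / 5 * RR g 𝒬⌋₊ : ℕ) : ℝ) + 1) =
          ((⌊4 / 5 * RR g 𝒬⌋₊ + 1 : ℕ) : ℝ) * Real.log 2 := by
        push_cast
        ring
      rw [e2, Real.exp_nat_mul, Real.exp_log (by norm_num), pow_succ]
      ring
    rw [e, Real.exp_le_exp]
    have h5 : (0.6931471803 : ℝ) * (4 / 5 * RR g 𝒬) ≤
        Real.log 2 * (((⌊4 / 5 * RR g 𝒬⌋₊ : ℕ) : ℝ) + 1) :=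
      mul_le_mul h4.le h3.le (by linarith) (by linarith)
    refine le_trans ?_ h5
    nlinarith
  obtain ⟨B, hB⟩ : ∃ B : ℝ, B = ((BB g N 𝒬 ⌊4 / 5 * RR g 𝒬⌋₊).ncard : ℝ) := ⟨_, rfl⟩
  obtain ⟨M, hM⟩ : ∃ M : ℝ, M = 2 ^ (g + 1) * (Nat.card k : ℝ) ^ ((2 * N + 1) * dd g) := ⟨_, rfl⟩
  have hN2 := hN.2
  rw [← hB, ← hM] at hN2
  rw [← hB]
  have hB0 : 0 ≤ B := by
    rw [hB]
    exact Nat.cast_nonneg _
  have hM0 : 0 ≤ M := by
    rw [hM]
    positivity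
  have hMK : K0 k g * (Nat.card k : ℝ) ^ (2 * N * dd g) = 2 * M := by
    rw [hM, show (2 * N + 1) * dd g = 2 * N * dd g + dd g by ring, pow_add]
    unfold K0
    ring
  rw [hMK]
  have h3 : (2 : ℝ) ^ ⌊4 / 5 * RR g 𝒬⌋₊ * B ≤ M * Real.exp (1 / 2 * RR g 𝒬) :=
    hN2.trans (mul_le_mul_of_nonneg_left h1 hM0)
  have h4 : Real.exp (554 / 1000 * RR g 𝒬) * B ≤ 2 * (M * Real.exp (1 / 2 * RR g 𝒬)) := by
    refine (mul_le_mul_of_nonneg_right h2 hB0).trans ?_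
    rw [mul_assoc]
    exact mul_le_mul_of_nonneg_left h3 (by norm_num)
  have h5 : 2 * (M * Real.exp (1 / 2 * RR g 𝒬)) ≤
      Real.exp (554 / 1000 * RR g 𝒬) * (2 * M * Real.exp (-(1 / 125) * RR g 𝒬)) := by
    have h6 : Real.exp (1 / 2 * RR g 𝒬) ≤ Real.exp (554 / 1000 * RR g 𝒬) *
        Real.exp (-(1 / 125) * RR g 𝒬) := by
      rw [← Real.exp_add, Real.exp_le_exp]
      nlinarith
    calc 2 * (M * Real.exp (1 / 2 * RR g 𝒬))
        ≤ 2 * (M * (Real.exp (554 / 1000 * RR g 𝒬) *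
          Real.exp (-(1 / 125) * RR g 𝒬))) := by gcongr
      _ = _ := by ring
  exact le_of_mul_le_mul_left (h4.trans h5) (Real.exp_pos _)

/-! ### The set of the primes -/

/-- The primes of degree at most `n` outside `T`. -/
noncomputable def PT (T : Finset k[X]) (n : ℕ) : Finset k[X] :=
  ((Finset.Icc 1 n).biUnion fun d => (Irr_finite (k := k) d).toFinset) \ T

theorem mem_PT {T : Finset k[X]} {n : ℕ} {Q : k[X]} (h : Q ∈ PT T n) :
    Q.Monic ∧ Irreducible Q ∧ Q.natDegree ≤ n ∧ Q ∉ T := by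
  unfold PT at h
  rw [Finset.mem_sdiff, Finset.mem_biUnion] at h
  obtain ⟨⟨d, h1, h2⟩, h3⟩ := h
  obtain ⟨h4, h5, h6⟩ := (Irr_finite (k := k) d).mem_toFinset.1 h2
  exact ⟨h4, h5, h6 ▸ (Finset.mem_Icc.1 h1).2, h3⟩

theorem irr_disj (n : ℕ) : ∀ a ∈ Finset.Icc 1 n, ∀ b ∈ Finset.Icc 1 n, a ≠ b →
    Disjoint (Irr_finite (k := k) a).toFinset (Irr_finite (k := k) b).toFinset := by
  intro a _ b _ hab
  rw [Finset.disjoint_left]
  intro p hp hp'
  rw [Set.Finite.mem_toFinset] at hp hp'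
  exact hab (hp.2.2.symm.trans hp'.2.2)

theorem sum_irr (n : ℕ) (F : ℕ → ℝ) :
    ∑ Q ∈ (Finset.Icc 1 n).biUnion fun d => (Irr_finite (k := k) d).toFinset, F Q.natDegree =
      ∑ d ∈ Finset.Icc 1 n, ((Irr k d).ncard : ℝ) * F d := by
  rw [Finset.sum_biUnion (irr_disj n)]
  refine Finset.sum_congr rfl fun d _ => ?_
  rw [Finset.sum_congr rfl fun Q hQ => by
    rw [((Irr_finite (k := k) d).mem_toFinset.1 hQ).2.2], Finset.sum_const, nsmul_eq_mul,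
    ← Set.ncard_eq_toFinset_card _ (Irr_finite (k := k) d)]

/-- The lower bound for the sum of the probabilities. -/
theorem RR_ge {g : ℕ} (hg : 1 ≤ g) (hk : ((2 * g + 1).factorial : k) ≠ 0) (h3 : 3 ≤ Nat.card k)
    (T : Finset k[X]) (n : ℕ) :
    1 / (8 * g) * Real.log (n + 1) - T.card ≤ RR g (PT T n) := by
  have hg' : (1 : ℝ) ≤ g := by exact_mod_cast hg
  have hq : (1 : ℝ) ≤ Nat.card k := by exact_mod_cast Nat.card_pos
  have h1 : ∑ Q ∈ PT T n, (1 : ℝ) / (4 * g * nm Q) ≤ RR g (PT T n) := by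
    refine Finset.sum_le_sum fun Q hQ => ?_
    obtain ⟨h4, h5, -⟩ := mem_PT hQ
    exact rho_ge hg hk h4 h5
  obtain ⟨U, hU⟩ : ∃ U : Finset k[X],
      U = (Finset.Icc 1 n).biUnion fun d => (Irr_finite (k := k) d).toFinset := ⟨_, rfl⟩
  have h2 : ∑ Q ∈ U, (1 : ℝ) / (4 * g * nm Q) - T.card ≤
      ∑ Q ∈ PT T n, (1 : ℝ) / (4 * g * nm Q) := by
    have e : PT T n = U \ T := by rw [hU]; rfl
    rw [e]
    have h4 : ∑ Q ∈ U, (1 : ℝ) / (4 * g * nm Q) ≤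
        ∑ Q ∈ U \ T, (1 : ℝ) / (4 * g * nm Q) + ∑ Q ∈ T, (1 : ℝ) / (4 * g * nm Q) := by
      rw [← Finset.sum_union Finset.sdiff_disjoint]
      refine Finset.sum_le_sum_of_subset_of_nonneg ?_ fun Q _ _ => by positivity
      intro Q hQ
      rw [Finset.mem_union, Finset.mem_sdiff]
      by_cases h : Q ∈ T
      · exact Or.inr h
      · exact Or.inl ⟨hQ, h⟩
    have h5 : ∑ Q ∈ T, (1 : ℝ) / (4 * g * nm Q) ≤ T.card := by
      have h6 : ∀ Q ∈ T, (1 : ℝ) / (4 * g * nm Q) ≤ 1 := by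
        intro Q _
        have p : (1 : ℝ) ≤ nm Q := by exact_mod_cast nm_pos Q
        rw [div_le_one (by positivity)]
        nlinarith
      refine (Finset.sum_le_sum h6).trans ?_
      rw [Finset.sum_const, nsmul_eq_mul, mul_one]
    linarith
  have h4 : 1 / (8 * g) * Real.log (n + 1) ≤ ∑ Q ∈ U, (1 : ℝ) / (4 * g * nm Q) := by
    have e := sum_irr (k := k) n fun d => (1 : ℝ) / (4 * g * (Nat.card k : ℝ) ^ d)
    rw [← hU] at e
    have e2 : ∑ Q ∈ U, (1 : ℝ) / (4 * g * nm Q) =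
        ∑ Q ∈ U, (1 : ℝ) / (4 * g * (Nat.card k : ℝ) ^ Q.natDegree) := by
      refine Finset.sum_congr rfl fun Q _ => ?_
      unfold nm
      push_cast
      rfl
    rw [e2, e]
    have h5 : ∀ d ∈ Finset.Icc 1 n, 1 / (8 * g) * ((d : ℝ))⁻¹ ≤
        ((Irr k d).ncard : ℝ) * (1 / (4 * g * (Nat.card k : ℝ) ^ d)) := by
      intro d hd
      have hd1 := (Finset.mem_Icc.1 hd).1
      have hd0 : (0 : ℝ) < d := by exact_mod_cast hd1
      have h6 := irr_ge (F := k) hd1 h3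
      have h7 : (Nat.card k : ℝ) ^ d ≤ 2 * (d * (Irr k d).ncard) := by exact_mod_cast h6
      have h8 : (0 : ℝ) < (Nat.card k : ℝ) ^ d := by positivity
      rw [mul_one_div, ← div_eq_mul_inv, div_div, div_le_div_iff₀ (by positivity) (by positivity),
        one_mul]
      calc 4 * g * (Nat.card k : ℝ) ^ d ≤ 4 * g * (2 * (d * (Irr k d).ncard)) := by gcongr
        _ = _ := by ring
    refine le_trans ?_ (Finset.sum_le_sum h5)
    rw [← Finset.mul_sum]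
    refine mul_le_mul_of_nonneg_left ?_ (by positivity)
    have h9 := log_add_one_le_harmonic n
    rw [harmonic_eq_sum_Icc] at h9
    push_cast at h9
    exact h9
  linarith

/-- The upper bound for the sum of the degrees. -/
theorem deg_le (T : Finset k[X]) (n : ℕ) : ∑ Q ∈ PT T n, (Q.natDegree : ℝ) / nm Q ≤ n := by
  obtain ⟨U, hU⟩ : ∃ U : Finset k[X],
      U = (Finset.Icc 1 n).biUnion fun d => (Irr_finite (k := k) d).toFinset := ⟨_, rfl⟩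
  have hq : (1 : ℝ) ≤ Nat.card k := by exact_mod_cast Nat.card_pos
  have h1 : ∑ Q ∈ PT T n, (Q.natDegree : ℝ) / nm Q ≤ ∑ Q ∈ U, (Q.natDegree : ℝ) / nm Q := by
    refine Finset.sum_le_sum_of_subset_of_nonneg ?_ fun Q _ _ => by positivity
    rw [hU]
    exact Finset.sdiff_subset
  refine h1.trans ?_
  have e := sum_irr (k := k) n fun d => (d : ℝ) / (Nat.card k : ℝ) ^ d
  rw [← hU] at e
  have e2 : ∑ Q ∈ U, (Q.natDegree : ℝ) / nm Q =
      ∑ Q ∈ U, (Q.natDegree : ℝ) / (Nat.card k : ℝ) ^ Q.natDegree := by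
    refine Finset.sum_congr rfl fun Q _ => ?_
    unfold nm
    push_cast
    rfl
  rw [e2, e]
  have h5 : ∀ d ∈ Finset.Icc 1 n, ((Irr k d).ncard : ℝ) * ((d : ℝ) / (Nat.card k : ℝ) ^ d) ≤ 1 := by
    intro d hd
    have hd1 := (Finset.mem_Icc.1 hd).1
    have h6 := Irr_mul_le (k := k) hd1
    have h7 : (d : ℝ) * (Irr k d).ncard ≤ (Nat.card k : ℝ) ^ d := by exact_mod_cast h6
    have h8 : (0 : ℝ) < (Nat.card k : ℝ) ^ d := by positivity
    rw [← mul_div_assoc, div_le_one h8]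
    linarith
  refine (Finset.sum_le_sum h5).trans ?_
  rw [Finset.sum_const, nsmul_eq_mul, mul_one, Nat.card_Icc]
  exact_mod_cast le_of_eq (by omega)

/-- There is a set of primes outside `T`, with a product of degree at most `D`, for which `f` is not
bad. -/
def GoodAt (g N D : ℕ) (T : Finset k[X]) (f : k[X][X]) : Prop :=
  ∃ S : Finset k[X], (∀ Q ∈ S, Q.Monic ∧ Irreducible Q ∧ Q ∉ T ∧ Ty Q f) ∧
    ∑ Q ∈ S, Q.natDegree ≤ D ∧ ¬ LBad g N S (fun _ => f.divX) f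

/-- **For almost all polynomials there is such a set.** -/
theorem mc (hBAD : S_BAD) {g : ℕ} (hg : 1 ≤ g) (hk : ((2 * g + 1).factorial : k) ≠ 0)
    (T : Finset k[X]) : ∃ C : ℝ, 0 < C ∧ ∀ D : ℕ, 1 ≤ D → ∀ᶠ N : ℕ in atTop, ∀ r : k[X],
    (((BF g N r 1 (fun _ => 0)).filter fun a => ¬ GoodAt g N D T (pol a)).card : ℝ) ≤
      C * (D : ℝ) ^ (-(1 / (2000 * g : ℝ))) * (Nat.card k : ℝ) ^ (2 * N * dd g) := by
  have h2 : (2 : k) ≠ 0 := by
    have := Pool.Agent.N738.PJ.fac_ne hk (m := 2) (by norm_num) (by omega)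
    exact_mod_cast this
  have h3 : 3 ≤ Nat.card k := by
    have h1 : 1 < Nat.card k := Finite.one_lt_card
    have h4 : Nat.card k ≠ 2 := by
      intro h4
      haveI := Fintype.ofFinite k
      have h5 : ((Fintype.card k : ℕ) : k) = 0 := Nat.cast_card_eq_zero _
      rw [← Nat.card_eq_fintype_card, h4] at h5
      exact h2 (by exact_mod_cast h5)
    omega
  have hg' : (1 : ℝ) ≤ g := by exact_mod_cast hg
  have hK0 : 0 ≤ K0 k g := by
    unfold K0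
    positivity
  refine ⟨(1 + K0 k g) * Real.exp T.card + 1, by positivity, fun D hD => ?_⟩
  have hD1 : (1 : ℝ) ≤ D := by exact_mod_cast hD
  have hD0 : (0 : ℝ) < D := by linarith
  obtain ⟨n, hn⟩ : ∃ n : ℕ, n = Nat.sqrt D := ⟨_, rfl⟩
  have hn1 : n * n ≤ D := hn ▸ Nat.sqrt_le D
  have hn2 : D < (n + 1) * (n + 1) := hn ▸ Nat.lt_succ_sqrt D
  obtain ⟨𝒬, h𝒬⟩ : ∃ 𝒬 : Finset k[X], 𝒬 = PT T n := ⟨_, rfl⟩
  have hQ : ∀ Q ∈ 𝒬, Q.Monic ∧ Irreducible Q := by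
    intro Q h
    rw [h𝒬] at h
    exact ⟨(mem_PT h).1, (mem_PT h).2.1⟩
  -- the exponential
  have hexp : Real.exp (-(1 / 125) * RR g 𝒬) ≤
      Real.exp T.card * (D : ℝ) ^ (-(1 / (2000 * g : ℝ))) := by
    have h4 := RR_ge hg hk h3 T n
    rw [← h𝒬] at h4
    have h5 : Real.log D ≤ 2 * Real.log (n + 1) := by
      have h6 : (D : ℝ) ≤ ((n : ℝ) + 1) ^ 2 := by
        rw [pow_two]
        exact_mod_cast hn2.le
      have h7 := Real.log_le_log hD0 h6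
      rw [Real.log_pow] at h7
      exact_mod_cast h7
    rw [Real.rpow_def_of_pos hD0, ← Real.exp_add, Real.exp_le_exp]
    have h8 : 1 / (16 * g) * Real.log D ≤ 1 / (8 * g) * Real.log (n + 1) := by
      calc 1 / (16 * g) * Real.log D ≤ 1 / (16 * g) * (2 * Real.log (n + 1)) := by gcongr
        _ = _ := by field_simp; ring
    have h9 : Real.log D * (-(1 / (2000 * g : ℝ))) = -(1 / 125) * (1 / (16 * g) * Real.log D) := by
      field_simp
      ring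
    rw [h9]
    have h10 : (0 : ℝ) ≤ T.card := Nat.cast_nonneg _
    nlinarith
  have hev : ∀ᶠ N : ℕ in atTop, ∑ Q ∈ 𝒬, Q.natDegree ≤ 4 * N := by
    filter_upwards [eventually_ge_atTop (∑ Q ∈ 𝒬, Q.natDegree)] with N hN
    omega
  filter_upwards [est2 hBAD hg h2 hQ, hev] with N hN1 hN2
  intro r
  have hqN : (0 : ℝ) ≤ (Nat.card k : ℝ) ^ (2 * N * dd g) := by positivity
  have e1 := est1 hg r hQ hN2
  have e2 := hN1.2
  have e3 := few3 hg (r := r) hQ D (N := N) (fun Q h =>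
    (Finset.single_le_sum (f := fun Q : k[X] => Q.natDegree) (fun _ _ => Nat.zero_le _) h).trans hN2)
  obtain ⟨s, hs⟩ : ∃ s : ℕ, s = ⌊4 / 5 * RR g 𝒬⌋₊ := ⟨_, rfl⟩
  rw [← hs] at e1 e2 hN1
  obtain ⟨B1, hB1⟩ : ∃ B1 : Finset (Fin (2 * g) → k[X]), B1 = (BF g N r 1 (fun _ => 0)).filter
    fun a => (SE 𝒬 (pol a)).card < s := ⟨_, rfl⟩
  obtain ⟨B3, hB3⟩ : ∃ B3 : Finset (Fin (2 * g) → k[X]), B3 = (BF g N r 1 (fun _ => 0)).filter
    fun a => D < ∑ Q ∈ SE 𝒬 (pol a), Q.natDegree := ⟨_, rfl⟩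
  obtain ⟨B2, hB2⟩ : ∃ B2 : Finset (Fin (2 * g) → k[X]), B2 = (BF g N r 1 (fun _ => 0)).filter
    fun a => pol a ∈ BB g N 𝒬 s := ⟨_, rfl⟩
  rw [← hB1] at e1
  rw [← hB3] at e3
  have hB2card : (B2.card : ℝ) ≤ ((BB g N 𝒬 s).ncard : ℝ) := by
    rw [Set.ncard_eq_toFinset_card _ hN1.1]
    have : B2.card ≤ hN1.1.toFinset.card := by
      refine Finset.card_le_card_of_injOn pol ?_ ?_
      · intro a ha
        rw [hB2] at ha
        exact Finset.mem_coe.2 (hN1.1.mem_toFinset.2 (Finset.mem_filter.1 ha).2)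
      · intro a _ b _ hab
        exact pol_inj hab
    exact_mod_cast this
  have hsub : ((BF g N r 1 (fun _ => 0)).filter fun a => ¬ GoodAt g N D T (pol a)) ⊆
      (B1 ∪ B2) ∪ B3 := by
    intro a ha
    obtain ⟨ha1, ha2⟩ := Finset.mem_filter.1 ha
    by_contra hn
    rw [Finset.mem_union, Finset.mem_union, not_or, not_or] at hn
    obtain ⟨⟨n1, n2⟩, n3⟩ := hn
    apply ha2
    refine ⟨SE 𝒬 (pol a), fun Q hQS => ?_, ?_, fun hb => ?_⟩
    · obtain ⟨h4, h5⟩ := Finset.mem_filter.1 hQS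
      rw [h𝒬] at h4
      obtain ⟨h6, h7, -, h8⟩ := mem_PT h4
      exact ⟨h6, h7, h8, h5⟩
    · by_contra h
      exact n3 (by rw [hB3]; exact Finset.mem_filter.2 ⟨ha1, not_le.1 h⟩)
    · apply n2
      rw [hB2]
      refine Finset.mem_filter.2 ⟨ha1, mo_pol a, ?_, hb⟩
      by_contra h
      exact n1 (by rw [hB1]; exact Finset.mem_filter.2 ⟨ha1, not_le.1 h⟩)
  have hcard : (((BF g N r 1 (fun _ => 0)).filter fun a => ¬ GoodAt g N D T (pol a)).card : ℝ) ≤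
      B1.card + B2.card + B3.card := by
    have h4 := Finset.card_le_card hsub
    have h5 := Finset.card_union_le (B1 ∪ B2) B3
    have h6 := Finset.card_union_le B1 B2
    have : ((BF g N r 1 (fun _ => 0)).filter fun a => ¬ GoodAt g N D T (pol a)).card ≤
      B1.card + B2.card + B3.card := by omega
    exact_mod_cast this
  -- the third set
  have e4 : (B3.card : ℝ) ≤ (Nat.card k : ℝ) ^ (2 * N * dd g) *
      (D : ℝ) ^ (-(1 / (2000 * g : ℝ))) := by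
    have h5 : (D : ℝ) * B3.card ≤ (Nat.card k : ℝ) ^ (2 * N * dd g) * n := by
      refine e3.trans (mul_le_mul_of_nonneg_left ?_ hqN)
      rw [h𝒬]
      exact deg_le T n
    have h6 : (n : ℝ) ≤ D * (D : ℝ) ^ (-(1 / (2000 * g : ℝ))) := by
      have h7 : (n : ℝ) ≤ (D : ℝ) ^ (1 / 2 : ℝ) := by
        rw [← Real.sqrt_eq_rpow]
        refine Real.le_sqrt_of_sq_le ?_
        rw [pow_two]
        exact_mod_cast hn1
      have h8 : D * (D : ℝ) ^ (-(1 / (2000 * g : ℝ))) = (D : ℝ) ^ (1 + -(1 / (2000 * g : ℝ))) := by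
        rw [Real.rpow_add hD0, Real.rpow_one]
      rw [h8]
      refine h7.trans (Real.rpow_le_rpow_of_exponent_le hD1 ?_)
      have h9 : 1 / (2000 * g : ℝ) ≤ 1 / 2 := by
        rw [div_le_div_iff₀ (by positivity) (by norm_num)]
        linarith
      linarith
    have h7 : (D : ℝ) * B3.card ≤ D * ((Nat.card k : ℝ) ^ (2 * N * dd g) *
        (D : ℝ) ^ (-(1 / (2000 * g : ℝ)))) := by
      refine h5.trans ((mul_le_mul_of_nonneg_left h6 hqN).trans (le_of_eq ?_))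
      ring
    exact le_of_mul_le_mul_left h7 hD0
  calc (((BF g N r 1 (fun _ => 0)).filter fun a => ¬ GoodAt g N D T (pol a)).card : ℝ)
      ≤ B1.card + B2.card + B3.card := hcard
    _ ≤ (Nat.card k : ℝ) ^ (2 * N * dd g) *
          (Real.exp T.card * (D : ℝ) ^ (-(1 / (2000 * g : ℝ)))) +
        K0 k g * (Nat.card k : ℝ) ^ (2 * N * dd g) *
          (Real.exp T.card * (D : ℝ) ^ (-(1 / (2000 * g : ℝ)))) +
        (Nat.card k : ℝ) ^ (2 * N * dd g) * (D : ℝ) ^ (-(1 / (2000 * g : ℝ))) := by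
        refine add_le_add (add_le_add (e1.trans ?_) (hB2card.trans (e2.trans ?_))) e4
        · exact mul_le_mul_of_nonneg_left hexp hqN
        · exact mul_le_mul_of_nonneg_left hexp (by positivity)
    _ = _ := by ring

end Pool.Agent.Helper28H.FF
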