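import Pool.Agent.N615.JM.FamT

/-!
# The number of the irreducible polynomials over a finite field, and of those with trace zero
-/

set_option autoImplicit false
set_option linter.all false

open Polynomial
open scoped Classical

namespace Pool.Agent.Helper28H.FF

open Pool.Agent.N490.PP.Fam (Irr Irr_finite Irr_mul_le q_pos)
open Pool.Agent.N738.PJ (taylor_coeff_pred)

section count

variable {F : Type} [Field F] [Finite F]

/-- The polynomial `X ^ (q ^ n) - X` is a product of irreducible polynomials of degree dividing `n`. -/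
theorem card_le_sum {n : ℕ} (hn : 1 ≤ n) :
    Nat.card F ^ n ≤ ∑ d ∈ n.divisors, d * (Irr F d).ncard := by
  obtain ⟨q, hq⟩ : ∃ q, q = Nat.card F := ⟨_, rfl⟩
  have hq1 : 1 < q := hq ▸ q_pos
  obtain ⟨P, hP⟩ : ∃ P : F[X], P = X ^ q ^ n - X := ⟨_, rfl⟩
  have hP0 : P ≠ 0 := by
    rw [hP]
    exact FiniteField.X_pow_card_pow_sub_X_ne_zero F (by omega) hq1
  have hPd : P.natDegree = q ^ n := by
    rw [hP]
    exact FiniteField.X_pow_card_pow_sub_X_natDegree_eq F (by omega) hq1
  have hsep : P.Separable := by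
    obtain ⟨p, hp⟩ := CharP.exists F
    haveI := hp
    rw [hP]
    refine galois_poly_separable p _ ?_
    haveI := Fintype.ofFinite F
    have h1 : p ∣ q := by
      rw [hq, Nat.card_eq_fintype_card]
      have h2 : ((Fintype.card F : ℕ) : F) = 0 := Nat.cast_card_eq_zero F
      exact (CharP.cast_eq_zero_iff F p _).1 h2
    exact dvd_pow h1 (by omega)
  obtain ⟨s, hs⟩ : ∃ s, s = UniqueFactorizationMonoid.normalizedFactors P := ⟨_, rfl⟩
  have hmon : ∀ p ∈ s, p.Monic ∧ Irreducible p ∧ p ∣ P := by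
    intro p hp
    rw [hs] at hp
    have h1 := UniqueFactorizationMonoid.irreducible_of_normalized_factor p hp
    have h2 := UniqueFactorizationMonoid.normalize_normalized_factor p hp
    exact ⟨(normalize_eq_self_iff_monic h1.ne_zero).1 h2, h1,
      UniqueFactorizationMonoid.dvd_of_mem_normalizedFactors hp⟩
  have hnd : s.Nodup := by
    rw [hs, ← UniqueFactorizationMonoid.squarefree_iff_nodup_normalizedFactors hP0]
    exact hsep.squarefree
  have hdeg : ∑ p ∈ s.toFinset, p.natDegree = q ^ n := by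
    have h1 : s.prod.natDegree = (s.map natDegree).sum :=
      natDegree_multiset_prod_of_monic s fun p hp => (hmon p hp).1
    have h2 : s.prod.natDegree = P.natDegree := by
      rw [hs]
      exact natDegree_eq_of_degree_eq (degree_eq_degree_of_associated
        (UniqueFactorizationMonoid.prod_normalizedFactors hP0))
    rw [← hPd, ← h2, h1]
    show (s.toFinset.val.map natDegree).sum = _
    rw [Multiset.toFinset_val, hnd.dedup]
  rw [← hq, ← hdeg]
  have hsub : s.toFinset ⊆ n.divisors.biUnion fun d => (Irr_finite (k := F) d).toFinset := by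
    intro p hp
    rw [Multiset.mem_toFinset] at hp
    obtain ⟨h1, h2, h3⟩ := hmon p hp
    rw [Finset.mem_biUnion]
    refine ⟨p.natDegree, ?_, ?_⟩
    · rw [Nat.mem_divisors]
      refine ⟨?_, by omega⟩
      rw [h2.natDegree_dvd_iff_dvd_X_pow_card_pow_sub_X, ← hq, ← hP]
      exact h3
    · rw [Set.Finite.mem_toFinset]
      exact ⟨h1, h2, rfl⟩
  refine (Finset.sum_le_sum_of_subset hsub).trans ?_
  rw [Finset.sum_biUnion (by
    intro a _ b _ hab
    show Disjoint _ _
    rw [Finset.disjoint_left]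
    intro p hp hp'
    rw [Set.Finite.mem_toFinset] at hp hp'
    exact hab (hp.2.2.symm.trans hp'.2.2))]
  refine Finset.sum_le_sum fun d _ => ?_
  rw [Finset.sum_congr rfl fun p hp => ((Irr_finite (k := F) d).mem_toFinset.1 hp).2.2,
    Finset.sum_const, smul_eq_mul, ← Set.ncard_eq_toFinset_card _ (Irr_finite (k := F) d), mul_comm]

theorem geo {q : ℕ} (hq : 3 ≤ q) (m : ℕ) : 2 * ∑ d ∈ Finset.range m, q ^ (d + 1) ≤ q ^ (m + 1) := by
  induction m with
  | zero => simp
  | succ m ih =>
    rw [Finset.sum_range_succ, mul_add]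
    have h1 : q ^ (m + 1 + 1) = q * q ^ (m + 1) := by ring
    have h2 : 3 * q ^ (m + 1) ≤ q * q ^ (m + 1) := Nat.mul_le_mul_right _ hq
    rw [h1]
    omega

/-- The number of the irreducible polynomials is at least half the expected number. -/
theorem irr_ge {n : ℕ} (hn : 1 ≤ n) (hF : 3 ≤ Nat.card F) :
    Nat.card F ^ n ≤ 2 * (n * (Irr F n).ncard) := by
  have h1 := card_le_sum (F := F) hn
  rw [← Nat.insert_self_properDivisors (by omega : n ≠ 0),
    Finset.sum_insert Nat.self_notMem_properDivisors] at h1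
  have h2 : 2 * ∑ d ∈ n.properDivisors, d * (Irr F d).ncard ≤ Nat.card F ^ n := by
    rcases Nat.eq_or_lt_of_le hn with h | h
    · rw [← h, Nat.properDivisors_one, Finset.sum_empty]
      omega
    · have h3 : ∑ d ∈ n.properDivisors, d * (Irr F d).ncard ≤
          ∑ d ∈ Finset.range (n / 2), Nat.card F ^ (d + 1) := by
        have h4 : n.properDivisors ⊆ (Finset.range (n / 2)).image fun d => d + 1 := by
          intro d hd
          rw [Nat.mem_properDivisors] at hd
          obtain ⟨⟨e, he⟩, hlt⟩ := hd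
          have hd0 : 0 < d := by
            rcases Nat.eq_zero_or_pos d with h5 | h5
            · subst h5; omega
            · exact h5
          have he2 : 2 ≤ e := by
            by_contra h6
            have : e = 0 ∨ e = 1 := by omega
            rcases this with h7 | h7
            · subst h7; omega
            · subst h7; omega
          have hd2 : d ≤ n / 2 := by
            rw [Nat.le_div_iff_mul_le (by norm_num), he]
            exact Nat.mul_le_mul_left _ he2
          rw [Finset.mem_image]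
          exact ⟨d - 1, Finset.mem_range.2 (by omega), by omega⟩
        calc ∑ d ∈ n.properDivisors, d * (Irr F d).ncard
            ≤ ∑ d ∈ n.properDivisors, Nat.card F ^ d := by
              refine Finset.sum_le_sum fun d hd => Irr_mul_le ?_
              exact Nat.pos_of_mem_properDivisors hd
          _ ≤ ∑ d ∈ (Finset.range (n / 2)).image fun d => d + 1, Nat.card F ^ d :=
              Finset.sum_le_sum_of_subset h4
          _ = _ := by
              rw [Finset.sum_image]
              intro a _ b _ hab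
              simpa using hab
      refine (Nat.mul_le_mul_left 2 h3).trans ((geo hF _).trans ?_)
      exact Nat.pow_le_pow_right (by omega) (by omega)
  omega

/-- monic irreducible polynomials of degree `n` without the term after the leading one -/
def Irr0 (F : Type) [Field F] (n : ℕ) : Set F[X] := {h | h ∈ Irr F n ∧ h.coeff (n - 1) = 0}

theorem irr0_fin (n : ℕ) : (Irr0 F n).Finite := (Irr_finite (k := F) n).subset fun _ h => h.1

/-- The number of the irreducible polynomials with trace zero. -/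
theorem irr0_ge {n : ℕ} (hn : 1 ≤ n) (hnF : (n : F) ≠ 0) (hF : 3 ≤ Nat.card F) :
    Nat.card F ^ n ≤ 2 * (n * (Nat.card F * (Irr0 F n).ncard)) := by
  haveI := Fintype.ofFinite F
  have hsub : Irr F n ⊆ ⋃ c ∈ (Finset.univ : Finset F), (fun h => taylor c h) '' Irr0 F n := by
    intro h hh
    obtain ⟨h1, h2, h3⟩ := hh
    obtain ⟨c, hc⟩ : ∃ c : F, c = h.coeff (n - 1) / n := ⟨_, rfl⟩
    rw [Set.mem_iUnion₂]
    refine ⟨c, Finset.mem_univ _, taylor (-c) h, ⟨⟨?_, ?_, ?_⟩, ?_⟩, ?_⟩
    · exact h1.comp_X_add_C _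
    · have : Irreducible (taylorEquiv (-c) h) :=
        (MulEquiv.irreducible_iff (taylorEquiv (-c))).mpr h2
      exact this
    · rw [natDegree_taylor, h3]
    · rw [taylor_coeff_pred h n hn h1 h3, hc]
      field_simp
      ring
    · show taylor c (taylor (-c) h) = h
      rw [taylor_taylor]
      simp
  have h1 : (Irr F n).ncard ≤ Nat.card F * (Irr0 F n).ncard := by
    have hfin : (⋃ c ∈ (Finset.univ : Finset F), (fun h => taylor c h) '' Irr0 F n).Finite :=
      Set.Finite.biUnion (Finset.finite_toSet _) fun c _ => (irr0_fin n).image _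
    calc (Irr F n).ncard ≤ _ := Set.ncard_le_ncard hsub hfin
      _ ≤ ∑ c ∈ (Finset.univ : Finset F), ((fun h => taylor c h) '' Irr0 F n).ncard :=
          Finset.set_ncard_biUnion_le _ _
      _ ≤ ∑ c ∈ (Finset.univ : Finset F), (Irr0 F n).ncard :=
          Finset.sum_le_sum fun c _ => Set.ncard_image_le (irr0_fin n)
      _ = Nat.card F * (Irr0 F n).ncard := by
          rw [Finset.sum_const, smul_eq_mul, Finset.card_univ, Nat.card_eq_fintype_card]
  exact (irr_ge hn hF).trans (Nat.mul_le_mul_left _ (Nat.mul_le_mul_left _ h1))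

end count

/-! ### The types -/

section types

open Pool.Agent.N352.PJ Pool.Agent.N615.JM
open Pool.Agent.N874.PP (nm)

variable {k : Type} [Field k]

/-- `f` is `x` times an irreducible polynomial modulo `Q`. -/
def Ty (Q : k[X]) (f : k[X][X]) : Prop :=
  Q ∣ f.coeff 0 ∧ Irreducible (f.divX.map (Ideal.Quotient.mk (Ideal.span {Q})))

/-- The reduced residues. -/
def Rd (g : ℕ) (Q : k[X]) : Set (Fin (2 * g) → k[X]) := {b | ∀ j, (b j).degree < Q.natDegree}

/-- The reduced residues of the type. -/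
def TF (g : ℕ) (Q : k[X]) : Set (Fin (2 * g) → k[X]) := {b | b ∈ Rd g Q ∧ Ty Q (pol b)}

theorem rd_pi (g : ℕ) (Q : k[X]) :
    Rd g Q = Set.univ.pi fun _ : Fin (2 * g) => (degreeLT k Q.natDegree : Set k[X]) := by
  ext b
  simp only [Rd, Set.mem_ofPred_eq, Set.mem_pi, Set.mem_univ, true_implies, SetLike.mem_coe,
    mem_degreeLT]

theorem rd_fin [Finite k] (g : ℕ) (Q : k[X]) : (Rd g Q).Finite := by
  rw [rd_pi]
  exact Set.Finite.pi fun _ => Pool.Agent.N490.PP.Fam.lt_finite _

theorem rd_card [Finite k] (g : ℕ) (Q : k[X]) : (Rd g Q).ncard = nm Q ^ (2 * g) := by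
  have e : Rd g Q ≃ (Fin (2 * g) → degreeLT k Q.natDegree) :=
    { toFun := fun b j => ⟨b.1 j, mem_degreeLT.2 (b.2 j)⟩
      invFun := fun c => ⟨fun j => c j, fun j => mem_degreeLT.1 (c j).2⟩
      left_inv := fun b => rfl
      right_inv := fun c => rfl }
  rw [← Nat.card_coe_set_eq, Nat.card_congr e, Nat.card_pi]
  simp only [Pool.Agent.N490.PP.Fam.card_lt, Finset.prod_const, Finset.card_univ, Fintype.card_fin]
  rfl

theorem tf_fin [Finite k] (g : ℕ) (Q : k[X]) : (TF g Q).Finite :=
  (rd_fin g Q).subset fun _ h => h.1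

/-- Representatives. -/
theorem exists_rep (Q : k[X]) (hm : Q.Monic) (y : k[X] ⧸ Ideal.span {Q}) :
    ∃ x : k[X], x.degree < Q.natDegree ∧ Ideal.Quotient.mk (Ideal.span {Q}) x = y := by
  obtain ⟨z, rfl⟩ := Ideal.Quotient.mk_surjective y
  refine ⟨z %ₘ Q, ?_, ?_⟩
  · rw [← degree_eq_natDegree hm.ne_zero]
    exact degree_modByMonic_lt z hm
  · rw [Ideal.Quotient.eq, Ideal.mem_span_singleton]
    refine ⟨-(z /ₘ Q), ?_⟩
    have := modByMonic_add_div z Q
    linear_combination this

theorem card_quot [Finite k] {Q : k[X]} (hQ : Irreducible Q) :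
    Finite (k[X] ⧸ Ideal.span {Q}) ∧ Nat.card (k[X] ⧸ Ideal.span {Q}) = nm Q := by
  have hmax : (Ideal.span {Q} : Ideal k[X]).IsMaximal :=
    PrincipalIdealRing.isMaximal_of_irreducible hQ
  let i1 : Field (k[X] ⧸ Ideal.span {Q}) := Ideal.Quotient.field _
  have hd1 : Module.finrank k (k[X] ⧸ Ideal.span {Q}) = Q.natDegree :=
    finrank_quotient_span_eq_natDegree
  have f1 : Module.Finite k (k[X] ⧸ Ideal.span {Q}) :=
    Module.finite_of_finrank_pos (by rw [hd1]; exact hQ.natDegree_pos)
  have := Module.natCard_eq_pow_finrank (K := k) (V := k[X] ⧸ Ideal.span {Q})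
  rw [hd1] at this
  exact ⟨Module.finite_of_finite k, this⟩

/-- **Many residues of the type.** -/
theorem tf_ge [Finite k] {g : ℕ} (hg : 1 ≤ g) (hk : ((2 * g + 1).factorial : k) ≠ 0) {Q : k[X]}
    (hm : Q.Monic) (hi : Irreducible Q) :
    nm Q ^ (2 * g) ≤ 4 * g * (nm Q * (TF g Q).ncard) := by
  have hmax : (Ideal.span {Q} : Ideal k[X]).IsMaximal :=
    PrincipalIdealRing.isMaximal_of_irreducible hi
  let i1 : Field (k[X] ⧸ Ideal.span {Q}) := Ideal.Quotient.field _
  obtain ⟨hfin, hcard⟩ := card_quot hi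
  obtain ⟨φ, hφ⟩ : ∃ φ, φ = Ideal.Quotient.mk (Ideal.span {Q}) := ⟨_, rfl⟩
  have hk2 : ((2 * g : ℕ) : k) ≠ 0 := Pool.Agent.N738.PJ.fac_ne hk (by omega) (by omega)
  have hF : ((2 * g : ℕ) : k[X] ⧸ Ideal.span {Q}) ≠ 0 := by
    intro h0
    have h3 : (φ.comp C) ((2 * g : ℕ) : k) = 0 := by rw [map_natCast, h0]
    exact hk2 ((map_eq_zero (φ.comp C)).mp h3)
  have h3 : 3 ≤ Nat.card (k[X] ⧸ Ideal.span {Q}) := by
    have h1 : 1 < Nat.card (k[X] ⧸ Ideal.span {Q}) := Finite.one_lt_card
    have h2 : Nat.card (k[X] ⧸ Ideal.span {Q}) ≠ 2 := by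
      intro h2
      haveI := Fintype.ofFinite (k[X] ⧸ Ideal.span {Q})
      have h4 : ((Fintype.card (k[X] ⧸ Ideal.span {Q}) : ℕ) : k[X] ⧸ Ideal.span {Q}) = 0 :=
        Nat.cast_card_eq_zero _
      rw [← Nat.card_eq_fintype_card, h2] at h4
      apply hF
      rw [Nat.cast_mul, h4, zero_mul]
    omega
  have hmain := irr0_ge (F := k[X] ⧸ Ideal.span {Q}) (n := 2 * g) (by omega) hF h3
  rw [hcard] at hmain
  have hle : (Irr0 (k[X] ⧸ Ideal.span {Q}) (2 * g)).ncard ≤ (TF g Q).ncard := by
    choose rep hrep1 hrep2 using exists_rep Q hm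
    obtain ⟨ψ, hψ⟩ : ∃ ψ : (k[X] ⧸ Ideal.span {Q})[X] → Fin (2 * g) → k[X],
        ψ = fun (h : (k[X] ⧸ Ideal.span {Q})[X]) (j : Fin (2 * g)) =>
          if (j : ℕ) = 0 then (0 : k[X]) else rep (h.coeff ((j : ℕ) - 1)) := ⟨_, rfl⟩
    have hmap : ∀ h ∈ Irr0 (k[X] ⧸ Ideal.span {Q}) (2 * g),
        (pol (ψ h)).divX.map (Ideal.Quotient.mk (Ideal.span {Q})) = h := by
      rintro h ⟨⟨h1, h2, h3⟩, h4⟩
      ext i
      rw [coeff_map, coeff_divX, pol_coeff]
      split_ifs with h5 h6
      · have : i = h.natDegree := by omega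
        rw [this, map_one]
        exact h1.coeff_natDegree.symm
      · rw [hψ]
        simp only
        rw [if_neg (by omega), hrep2]
        rfl
      · rw [map_zero]
        rcases Nat.lt_or_ge i (2 * g) with h7 | h7
        · have : i = 2 * g - 1 := by omega
          rw [this, h4]
        · rw [coeff_eq_zero_of_natDegree_lt]
          omega
    refine Set.ncard_le_ncard_of_injOn ψ ?_ ?_ (tf_fin g Q)
    · intro h hh
      refine ⟨?_, ?_, ?_⟩
      · intro j
        rw [hψ]
        simp only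
        split_ifs with h5
        · rw [degree_zero]
          exact WithBot.bot_lt_coe _
        · exact hrep1 _
      · rw [pol_coeff, if_neg (by omega), dif_pos (by omega), hψ]
        simp
      · rw [hmap h hh]
        exact hh.1.2.1
    · intro h hh h' hh' he
      rw [← hmap h hh, ← hmap h' hh', he]
  calc nm Q ^ (2 * g) ≤ 2 * (2 * g * (nm Q * (Irr0 (k[X] ⧸ Ideal.span {Q}) (2 * g)).ncard)) := hmain
    _ ≤ 2 * (2 * g * (nm Q * (TF g Q).ncard)) := by gcongr
    _ = _ := by ring

/-- **Few residues of the type.** -/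
theorem tf_le [Finite k] {g : ℕ} (hg : 1 ≤ g) {Q : k[X]} (hi : Irreducible Q) :
    nm Q * (TF g Q).ncard ≤ nm Q ^ (2 * g) := by
  rw [← rd_card g Q]
  have hlt : (degreeLT k Q.natDegree : Set k[X]).ncard = nm Q :=
    Pool.Agent.N490.PP.Fam.lt_ncard _
  rw [← hlt, ← Set.ncard_prod]
  have h0 : 0 < 2 * g := by omega
  refine Set.ncard_le_ncard_of_injOn
    (fun p : k[X] × (Fin (2 * g) → k[X]) => Function.update p.2 ⟨0, h0⟩ p.1) ?_ ?_ (rd_fin g Q)
  · rintro ⟨x, b⟩ ⟨hx, hb⟩ j
    show (Function.update b ⟨0, h0⟩ x j).degree < _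
    by_cases hj : j = ⟨0, h0⟩
    · subst hj
      rw [Function.update_self]
      exact mem_degreeLT.1 hx
    · rw [Function.update_of_ne hj]
      exact hb.1 j
  · rintro ⟨x, b⟩ ⟨hx, hb⟩ ⟨x', b'⟩ ⟨hx', hb'⟩ he
    have hz : ∀ c : Fin (2 * g) → k[X], c ∈ TF g Q → c ⟨0, h0⟩ = 0 := by
      rintro c ⟨h1, h2, -⟩
      rw [pol_coeff, if_neg (by omega), dif_pos h0] at h2
      have h3 := h1 ⟨0, h0⟩
      rw [← degree_eq_natDegree hi.ne_zero] at h3
      exact eq_zero_of_dvd_of_degree_lt h2 h3
    have he' : ∀ j, Function.update b ⟨0, h0⟩ x j = Function.update b' ⟨0, h0⟩ x' j := fun j =>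
      congrFun he j
    have h1 := he' ⟨0, h0⟩
    rw [Function.update_self, Function.update_self] at h1
    refine Prod.ext h1 ?_
    funext j
    show b j = b' j
    by_cases hj : j = ⟨0, h0⟩
    · rw [hj, hz b hb, hz b' hb']
    · have h2 := he' j
      rwa [Function.update_of_ne hj, Function.update_of_ne hj] at h2

end types

end Pool.Agent.Helper28H.FF
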