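import Pool.Agent.Helper28H.FF.Est
import Pool.Agent.Helper28H.FF.Top
import Pool.Agent.N874.TW.Final

/-!
# Almost all curves of the family have a twist of small degree with trivial 2-Selmer group
-/

set_option autoImplicit false
set_option linter.all false

open Polynomial IsDedekindDomain Filter
open Pool.Agent.N352.PJ
open Pool.Agent.N615.JM
open Pool.Agent.N874.JM (GoodT FamT)
open Pool.Agent.N874.TW
open Pool.Agent.N874.PP (nm)
open scoped Classical IntermediateField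

namespace Pool.Agent.Helper28H.FF

/-- The reduction at infinity. -/
noncomputable def rInf {k : Type} [Field k] (g N : ℕ) (f : k[X][X]) : k[X] :=
  ∑ j ∈ Finset.range (2 * g + 2), C ((f.coeff j).coeff (2 * N * (2 * g + 1 - j))) * X ^ j

theorem rInf_coeff {k : Type} [Field k] (g N : ℕ) (f : k[X][X]) (i : ℕ) :
    (rInf g N f).coeff i = if i < 2 * g + 2 then (f.coeff i).coeff (2 * N * (2 * g + 1 - i)) else 0 := by
  unfold rInf
  rw [finset_sum_coeff]
  simp only [coeff_C_mul, coeff_X_pow]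
  by_cases h : i < 2 * g + 2
  · rw [if_pos h, Finset.sum_eq_single i]
    · rw [if_pos rfl, mul_one]
    · intro j _ hj
      rw [if_neg (Ne.symm hj), mul_zero]
    · intro hi
      exact absurd (Finset.mem_range.2 h) hi
  · rw [if_neg h]
    refine Finset.sum_eq_zero fun j hj => ?_
    rw [if_neg, mul_zero]
    rintro rfl
    exact h (Finset.mem_range.1 hj)

/-- The family. -/
structure InF {k : Type} [Field k] (T : Finset k[X]) (g N : ℕ) (f : k[X][X]) : Prop where
  ht : Ht g (2 * N) f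
  inf : Irreducible (rInf g N f)
  sq : Squarefree (dsc g f)
  irr : ∀ P ∈ T, Irreducible (f.map (Ideal.Quotient.mk (Ideal.span {P})))

section

variable {k : Type} [Field k] {T : Finset k[X]} {g N : ℕ} {f : k[X][X]}

theorem InF.goodR (h : InF T g N f) : GoodR g (rInf g N f) := by
  have hm := h.ht.mon
  have hd := h.ht.deg
  have h1 : (rInf g N f).coeff (2 * g + 1) = 1 := by
    rw [rInf_coeff, if_pos (by omega), ← hd, hm.coeff_natDegree, hd, Nat.sub_self, mul_zero,
      coeff_one_zero]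
  have h2 : (rInf g N f).natDegree = 2 * g + 1 := by
    apply natDegree_eq_of_le_of_coeff_ne_zero
    · rw [natDegree_le_iff_coeff_eq_zero]
      intro j hj
      rw [rInf_coeff, if_neg (by omega)]
    · rw [h1]
      exact one_ne_zero
  refine ⟨?_, h.inf, h2, ?_⟩
  · rw [Monic, leadingCoeff, h2, h1]
  · rw [rInf_coeff, if_pos (by omega), h.ht.tr, coeff_zero]

theorem InF.mo (h : InF T g N f) : Mo g f := ⟨h.ht.mon, h.ht.deg, h.ht.tr⟩

theorem InF.fam (hg : 1 ≤ g) (h : InF T g N f) {S : Finset k[X]}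
    (hS : ∀ Q ∈ S, Ty Q f) : Fam g N (rInf g N f) S (fun _ => f.divX) f := by
  refine ⟨h.ht, fun j hj => ?_, fun Q hQ j => ?_, h.sq⟩
  · rw [rInf_coeff, if_pos (by omega)]
  · rcases j with _ | j
    · rw [mul_coeff_zero, coeff_X_zero, zero_mul, sub_zero]
      exact (hS Q hQ).1
    · rw [coeff_X_mul, coeff_divX, sub_self]
      exact dvd_zero _

/-- The coefficients of the polynomials in the family are in the box. -/
theorem InF.box [Finite k] (h : InF T g N f) :
    (fun j : Fin (2 * g) => f.coeff j) ∈ BF g N (rInf g N f) 1 (fun _ => 0) := by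
  rw [mem_BF]
  intro j
  refine ⟨h.ht.ht j (by have := j.2; omega), ?_, one_dvd _⟩
  rw [rInf_coeff, if_pos (by have := j.2; omega)]

end

/-- There is a small twist. -/
def Small {k : Type} [Field k] (K : Type) [Field K] [Algebra k[X] K] [IsFractionRing k[X] K]
    (T : Finset k[X]) (D : ℕ) (f : k[X][X]) : Prop :=
  ∃ J : Finset k[X], (∀ Q ∈ J, Q.Monic ∧ Irreducible Q ∧ Q ∉ T ∧ Ty Q f) ∧
    ∑ Q ∈ J, Q.natDegree ≤ D ∧ UniT K J f

theorem small_of {k : Type} [Field k] [Finite k] (K : Type) [Field K] [Algebra k[X] K]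
    [IsFractionRing k[X] K] {T : Finset k[X]} {g N D : ℕ} {f : k[X][X]} (hg : 1 ≤ g)
    (hk : ((2 * g + 1).factorial : k) ≠ 0) (h : InF T g N f) (hG : GoodAt g N D T f) :
    Small K T D f := by
  have h2 : (2 : k) ≠ 0 := by
    have := Pool.Agent.N738.PJ.fac_ne hk (m := 2) (by norm_num) (by omega)
    exact_mod_cast this
  obtain ⟨S, hS, hD, hnb⟩ := hG
  obtain ⟨J, hJ, hU⟩ := selF2 Pool.Agent.N874.JM.parts K h2 hg h.goodR
    (goodS_of hg h.mo fun Q hQ => ⟨(hS Q hQ).1, (hS Q hQ).2.1, (hS Q hQ).2.2.2⟩)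
    (h.fam hg fun Q hQ => (hS Q hQ).2.2.2) hnb
  exact ⟨J, fun Q hQ => hS Q (hJ hQ),
    (Finset.sum_le_sum_of_subset hJ).trans hD, hU⟩

section count

variable {k : Type} [Field k] [Finite k]

theorem inF_fin (T : Finset k[X]) (g N : ℕ) : {f : k[X][X] | InF T g N f}.Finite :=
  (Pool.Agent.N415.PJMAIN.ht_card (k := k) g (2 * N)).1.subset fun f hf => hf.ht

/-- The family is large. -/
theorem inF_ge {g : ℕ} (hg : 1 ≤ g) (hk : ((2 * g + 1).factorial : k) ≠ 0) (T : Finset k[X])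
    (hT : ∀ P ∈ T, P.Monic ∧ Irreducible P) : ∃ c : ℝ, 0 < c ∧ ∀ᶠ N : ℕ in atTop,
    c * (Nat.card k : ℝ) ^ (2 * N * dd g) ≤ ({f : k[X][X] | InF T g N f}.ncard : ℝ) := by
  obtain ⟨r, hr⟩ := Pool.Agent.N738.PJ.gr g k hk
  obtain ⟨A, hA⟩ := (tch g k hg hk T hT).1
  obtain ⟨c, hc, h⟩ := famt g k hg hk r hr T A hA
  obtain ⟨N₀, hN⟩ := h ∅ (fun _ => 0) (fun Q hQ => absurd hQ (Finset.notMem_empty _))
    (Finset.disjoint_empty_left _)
  refine ⟨c, hc, ?_⟩
  filter_upwards [eventually_ge_atTop N₀] with N hN'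
  have h1 := hN N hN'
  rw [Finset.prod_empty, Nat.cast_one, one_mul] at h1
  refine h1.trans ?_
  have h2 : {f : k[X][X] | FamT g N r ∅ (fun _ => 0) T A f} ⊆ {f : k[X][X] | InF T g N f} := by
    intro f hf
    have e : rInf g N f = r := by
      ext i
      rw [rInf_coeff]
      by_cases h3 : i < 2 * g + 2
      · rw [if_pos h3]
        rcases Nat.lt_or_ge i (2 * g + 1) with h4 | h4
        · exact hf.fam.inf i (by omega)
        · have h5 : i = 2 * g + 1 := by omega
          rw [h5, Nat.sub_self, mul_zero]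
          have h6 : f.coeff (2 * g + 1) = 1 := by
            rw [← hf.fam.ht.deg]
            exact hf.fam.ht.mon.coeff_natDegree
          have h7 : r.coeff (2 * g + 1) = 1 := by
            rw [← hr.2.2.1]
            exact hr.1.coeff_natDegree
          rw [h6, h7, coeff_one_zero]
      · rw [if_neg h3, coeff_eq_zero_of_natDegree_lt]
        rw [hr.2.2.1]
        omega
    refine ⟨hf.fam.ht, by rw [e]; exact hr.2.1, hf.fam.sq, fun P hP => ?_⟩
    rw [map_cg (hf.con P hP)]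
    exact (hA P hP).2.2.2.2.2
  exact_mod_cast Set.ncard_le_ncard h2 (inF_fin T g N)

/-- The reductions at infinity are finite in number. -/
theorem goodR_fin (g : ℕ) : {r : k[X] | GoodR g r}.Finite := by
  refine (Pool.Agent.N490.PP.Fam.Mon_finite (k := k) (2 * g + 1)).subset ?_
  intro r hr
  exact ⟨hr.1, hr.2.2.1⟩

/-- **Almost all curves of the family have a small twist.** -/
theorem almost_all (K : Type) [Field K] [Algebra k[X] K] [IsFractionRing k[X] K] {g : ℕ}
    (hg : 1 ≤ g) (hk : ((2 * g + 1).factorial : k) ≠ 0) (T : Finset k[X])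
    (hT : ∀ P ∈ T, P.Monic ∧ Irreducible P) : ∃ C : ℝ, 0 < C ∧ ∀ D : ℕ, 1 ≤ D →
    ∀ᶠ N : ℕ in atTop, ({f : k[X][X] | InF T g N f ∧ ¬ Small K T D f}.ncard : ℝ) ≤
      C * (D : ℝ) ^ (-(1 / (2000 * g : ℝ))) * ({f : k[X][X] | InF T g N f}.ncard : ℝ) := by
  obtain ⟨c, hc, hge⟩ := inF_ge hg hk T hT
  obtain ⟨C, hC, hmc⟩ := mc Pool.Agent.N874.JM.bad hg hk T
  obtain ⟨ℛ, hℛ⟩ : ∃ ℛ : Finset k[X], ℛ = (goodR_fin (k := k) g).toFinset := ⟨_, rfl⟩
  refine ⟨(ℛ.card + 1) * C / c, by positivity, fun D hD => ?_⟩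
  filter_upwards [hge, hmc D hD] with N h1 h2
  obtain ⟨q, hq⟩ : ∃ q : ℝ, q = (Nat.card k : ℝ) ^ (2 * N * dd g) := ⟨_, rfl⟩
  obtain ⟨η, hη⟩ : ∃ η : ℝ, η = (D : ℝ) ^ (-(1 / (2000 * g : ℝ))) := ⟨_, rfl⟩
  rw [← hq] at h1 h2
  rw [← hη] at h2 ⊢
  have hη0 : 0 ≤ η := by
    rw [hη]
    positivity
  have hq0 : 0 ≤ q := by
    rw [hq]
    positivity
  have hsub : {f : k[X][X] | InF T g N f ∧ ¬ Small K T D f} ⊆
      ⋃ r ∈ ℛ, pol '' (((BF g N r 1 (fun _ => 0)).filter fun a => ¬ GoodAt g N D T (pol a) :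
        Finset (Fin (2 * g) → k[X])) : Set (Fin (2 * g) → k[X])) := by
    rintro f ⟨hf, hns⟩
    rw [Set.mem_iUnion₂]
    refine ⟨rInf g N f, ?_, fun j => f.coeff j, ?_, hf.mo.eq⟩
    · rw [hℛ, Set.Finite.mem_toFinset]
      exact hf.goodR
    · rw [Finset.mem_coe, Finset.mem_filter]
      refine ⟨hf.box, fun hG => hns ?_⟩
      rw [hf.mo.eq] at hG
      exact small_of K hg hk hf hG
  have hfin : (⋃ r ∈ ℛ, pol '' (((BF g N r 1 (fun _ => 0)).filter fun a =>
      ¬ GoodAt g N D T (pol a) : Finset (Fin (2 * g) → k[X])) :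
        Set (Fin (2 * g) → k[X]))).Finite :=
    Set.Finite.biUnion (Finset.finite_toSet _) fun r _ => (Finset.finite_toSet _).image _
  have h3 : ({f : k[X][X] | InF T g N f ∧ ¬ Small K T D f}.ncard : ℝ) ≤
      ∑ r ∈ ℛ, (((BF g N r 1 (fun _ => 0)).filter fun a =>
        ¬ GoodAt g N D T (pol a)).card : ℝ) := by
    have h4 := (Set.ncard_le_ncard hsub hfin).trans (Finset.set_ncard_biUnion_le _ _)
    have h5 : ∑ r ∈ ℛ, (pol '' (((BF g N r 1 (fun _ => 0)).filter fun a =>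
        ¬ GoodAt g N D T (pol a) : Finset (Fin (2 * g) → k[X])) :
          Set (Fin (2 * g) → k[X]))).ncard ≤
        ∑ r ∈ ℛ, ((BF g N r 1 (fun _ => 0)).filter fun a => ¬ GoodAt g N D T (pol a)).card := by
      refine Finset.sum_le_sum fun r _ => ?_
      refine (Set.ncard_image_le (Finset.finite_toSet _)).trans ?_
      rw [Set.ncard_coe_finset]
    exact_mod_cast h4.trans h5
  calc ({f : k[X][X] | InF T g N f ∧ ¬ Small K T D f}.ncard : ℝ)
      ≤ ∑ r ∈ ℛ, (((BF g N r 1 (fun _ => 0)).filter fun a =>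
        ¬ GoodAt g N D T (pol a)).card : ℝ) := h3
    _ ≤ ∑ r ∈ ℛ, C * η * q := Finset.sum_le_sum fun r _ => h2 r
    _ = ℛ.card * (C * η * q) := by rw [Finset.sum_const, nsmul_eq_mul]
    _ ≤ (ℛ.card + 1) * (C * η * q) := by
        refine mul_le_mul_of_nonneg_right (by linarith) (by positivity)
    _ = (ℛ.card + 1) * C / c * η * (c * q) := by field_simp
    _ ≤ (ℛ.card + 1) * C / c * η * ({f : k[X][X] | InF T g N f}.ncard : ℝ) :=
        mul_le_mul_of_nonneg_left h1 (by positivity)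

end count

end Pool.Agent.Helper28H.FF
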